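import Pool.Agent.E8helper98.WD.Nest

set_option autoImplicit false
set_option linter.unusedSectionVars false

/-!
# One-parameter subgroups: divergent points which are not contracted by any rational vector
-/

namespace Pool.Agent.E8helper98.WD

open Filter Topology Matrix Matrix.SpecialLinearGroup

variable {ι : Type*} [Fintype ι] [DecidableEq ι]

variable {I : Set ι} {p m : ι}

theorem countable_mvp : Countable (MvPolynomial (ι × ι) ℚ) := by
  rw [← Cardinal.mk_le_aleph0_iff]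
  refine (MvPolynomial.cardinalMk_le_max_lift).trans ?_
  refine max_le (max_le ?_ ?_) le_rfl
  · simp
  · rw [Cardinal.lift_le_aleph0]
    exact Cardinal.mk_le_aleph0

/-- the closed sets to be avoided -/
def OO (μ : ι → ℝ) (f : MvPolynomial (ι × ι) ℚ) (y : (Matrix.SpecialLinearGroup ι ℝ)) : Set (Matrix.SpecialLinearGroup ι ℝ) :=
  {g | ((g * y : (Matrix.SpecialLinearGroup ι ℝ)) : Matrix ι ι ℝ) ∈ Oset μ (MvPolynomial.map (algebraMap ℚ ℝ) f)}

theorem good_OO (μ : ι → ℝ) (f : MvPolynomial (ι × ι) ℚ) (y : (Matrix.SpecialLinearGroup ι ℝ)) : Good I p m (OO μ f y) := by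
  constructor
  · have hc : Continuous (fun g : (Matrix.SpecialLinearGroup ι ℝ) => ((g * y : (Matrix.SpecialLinearGroup ι ℝ)) : Matrix ι ι ℝ)) :=
      continuous_subtype_val.comp (continuous_id.mul continuous_const)
    exact (isClosed_Oset μ _).preimage hc
  · intro e X Y
    have h := line_Oset μ (MvPolynomial.map (algebraMap ℚ ℝ) f) ((X * Y * y : (Matrix.SpecialLinearGroup ι ℝ)) : Matrix ι ι ℝ)
      ((X : Matrix ι ι ℝ) * single e.i e.j 1 * ((Y * y : (Matrix.SpecialLinearGroup ι ℝ)) : Matrix ι ι ℝ))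
    have e1 : ∀ t : ℝ, ((X * T e t * Y * y : (Matrix.SpecialLinearGroup ι ℝ)) : Matrix ι ι ℝ) =
        ((X * Y * y : (Matrix.SpecialLinearGroup ι ℝ)) : Matrix ι ι ℝ) + t • ((X : Matrix ι ι ℝ) * single e.i e.j 1 *
          ((Y * y : (Matrix.SpecialLinearGroup ι ℝ)) : Matrix ι ι ℝ)) := by
      intro t
      simp only [coe_mul]
      have : (T e t : Matrix ι ι ℝ) = 1 + t • single e.i e.j 1 := by
        change (1 : Matrix ι ι ℝ) + single e.i e.j t = _
        rw [smul_single]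
        simp
      rw [this]
      simp only [mul_add, mul_one, add_mul, mul_smul_comm, smul_mul_assoc, Matrix.mul_assoc]
    have e2 : {t : ℝ | X * T e t * Y ∈ OO μ f y} = {t : ℝ | ((X * Y * y : (Matrix.SpecialLinearGroup ι ℝ)) : Matrix ι ι ℝ) +
        t • ((X : Matrix ι ι ℝ) * single e.i e.j 1 * ((Y * y : (Matrix.SpecialLinearGroup ι ℝ)) : Matrix ι ι ℝ)) ∈
          Oset μ (MvPolynomial.map (algebraMap ℚ ℝ) f)} := by
      ext t
      change ((X * T e t * Y * y : (Matrix.SpecialLinearGroup ι ℝ)) : Matrix ι ι ℝ) ∈ Oset μ (MvPolynomial.map (algebraMap ℚ ℝ) f) ↔ _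
      rw [e1 t]
      rfl
    rw [e2]
    exact h

theorem dexp_coe (μ : ι → ℝ) (a : ℝ) (h : ∑ i, a * μ i = 0) :
    ((dexp (fun i => a * μ i) h : (Matrix.SpecialLinearGroup ι ℝ)) : Matrix ι ι ℝ) = fl μ a := rfl

/-- **One-parameter subgroups.** -/
theorem base {c : ι} (hpm : p ≠ m) (hp : p ∈ I) (hm : m ∈ I) (hc : c ∈ I) (hcp : c ≠ p)
    (hcm : c ≠ m) (μ : ι → ℝ) (hμ : ∑ i, μ i = 0) (hI : ∀ i, i ∉ I → μ i = 0)
    (hμp : 0 < μ p) (hμm : μ m < 0) {N : Set (Matrix.SpecialLinearGroup ι ℝ)} (hN : N ∈ 𝓝 (1 : (Matrix.SpecialLinearGroup ι ℝ))) {Y : Set (Matrix.SpecialLinearGroup ι ℝ)} (hY : Y.Countable) :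
    ∃ g ∈ N, g ∈ closure ((H I p m : Set (Matrix.SpecialLinearGroup ι ℝ))) ∧
      (∀ ε : ℝ, 0 < ε → ∃ A : ℝ, ∀ a, A ≤ a → g ∈ Con μ ε a ∧ g ∈ Con μ ε (-a)) ∧
      ∀ (K : ℕ) (ρ : (Matrix.SpecialLinearGroup ι ℝ) →* Matrix (Fin K) (Fin K) ℝ) (P : Fin K → Fin K → MvPolynomial (ι × ι) ℚ)
        (_ : ∀ g i j, ρ g i j = MvPolynomial.aeval (fun q : ι × ι => (g : Matrix ι ι ℝ) q.1 q.2) (P i j))
        (v : Fin K → ℚ) (_ : v ≠ 0) (y : (Matrix.SpecialLinearGroup ι ℝ)) (_ : y ∈ Y) (a : ℕ → ℝ) (_ : Tendsto a atTop atTop)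
        (ha : ∀ k, ∑ i, a k * μ i = 0),
        ¬ Tendsto (fun k => ρ (dexp (fun i => a k * μ i) (ha k) * (g * y)) *ᵥ (fun j => ((v j : ℚ) : ℝ)))
          atTop (𝓝 0) := by
  have hw : Wt μ p m := ⟨hμp, hμm⟩
  let e0 : Al I p m := ⟨p, c, hcp.symm, hp, hc, fun h => hcm h.2, fun h => hpm h.1⟩
  have hcount : Countable (MvPolynomial (ι × ι) ℚ × (insert 1 Y : Set (Matrix.SpecialLinearGroup ι ℝ))) := by
    have := countable_mvp (ι := ι)
    have : Countable (insert 1 Y : Set (Matrix.SpecialLinearGroup ι ℝ)) := (hY.insert 1).to_subtype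
    infer_instance
  have hnon : Nonempty (MvPolynomial (ι × ι) ℚ × (insert 1 Y : Set (Matrix.SpecialLinearGroup ι ℝ))) :=
    ⟨(0, ⟨1, Set.mem_insert _ _⟩)⟩
  obtain ⟨φ, hφ⟩ := exists_surjective_nat (MvPolynomial (ι × ι) ℚ × (insert 1 Y : Set (Matrix.SpecialLinearGroup ι ℝ)))
  obtain ⟨g, hgN, hgC, hgw, hgO⟩ := nested hw e0 (fun j => OO μ (φ j).1 (φ j).2.1)
    (fun j => good_OO μ _ _) hN
  refine ⟨g, hgN, hgC, hgw, ?_⟩
  intro K ρ P hP v hv y hy a hatop ha hT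
  -- the polynomials of the coordinates
  let F : Fin K → MvPolynomial (ι × ι) ℚ := fun i => ∑ j, P i j * MvPolynomial.C (v j)
  have hF : ∀ (x : (Matrix.SpecialLinearGroup ι ℝ)) (i : Fin K), ev (MvPolynomial.map (algebraMap ℚ ℝ) (F i)) (x : Matrix ι ι ℝ) =
      (ρ x *ᵥ (fun j => ((v j : ℚ) : ℝ))) i := by
    intro x i
    unfold ev
    rw [MvPolynomial.eval_map, ← MvPolynomial.aeval_def]
    simp only [F, map_sum, map_mul, MvPolynomial.aeval_C]
    change _ = ∑ j, ρ x i j * ((v j : ℚ) : ℝ)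
    refine Finset.sum_congr rfl fun j _ => ?_
    rw [hP]
    rfl
  have hmem : ∀ i, g ∈ OO μ (F i) y := by
    intro i
    refine mem_Oset_of_seq hatop ?_
    have h1 := tendsto_pi_nhds.1 hT i
    refine h1.congr fun k => ?_
    rw [← hF, coe_mul, dexp_coe]
  have hall : ∀ i, ∀ h ∈ H I p m, h ∈ OO μ (F i) y := by
    intro i
    obtain ⟨j, hj⟩ := hφ (F i, ⟨y, Set.mem_insert_of_mem _ hy⟩)
    have := hgO j
    simp only [hj] at this
    exact this.resolve_right fun h => h (hmem i)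
  have hz : ρ y *ᵥ (fun j => ((v j : ℚ) : ℝ)) = 0 := by
    refine orbit_zero hpm hp hm hc hcp hcm μ hμ hI ρ _ fun h hh => ?_
    rw [tendsto_pi_nhds]
    intro i
    have h1 := (tendsto_of_mem_Oset (hall i h hh)).comp tendsto_natCast_atTop_atTop
    refine h1.congr fun n => ?_
    have hn : ∑ i, ((n : ℝ) * μ i) = 0 := by rw [← Finset.mul_sum, hμ, mul_zero]
    have e1 := hF (dexp μ hμ ^ n * (h * y)) i
    rw [coe_mul, dexp_pow μ hμ n hn, dexp_coe μ (n : ℝ) hn] at e1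
    simp only [Function.comp_apply]
    rw [e1, mulVec_mulVec, ← map_mul, dexp_pow μ hμ n hn, mul_assoc]
  have hv0 : (fun j => ((v j : ℚ) : ℝ)) = 0 := by
    have : ρ y⁻¹ *ᵥ (ρ y *ᵥ (fun j => ((v j : ℚ) : ℝ))) = 0 := by rw [hz, mulVec_zero]
    rwa [mulVec_mulVec, ← map_mul, inv_mul_cancel, map_one, one_mulVec] at this
  apply hv
  funext j
  have := congrFun hv0 j
  simpa using this

end Pool.Agent.E8helper98.WD
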