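import Mathlib

set_option autoImplicit false
set_option linter.unusedSectionVars false

/-!
# Exponential sums with real exponents, and polynomial functions along a diagonal flow
-/

namespace Pool.Agent.E8helper98.WD

open Filter Topology Finset

/-- the exponential sum with coefficients `c s`, `s ∈ S` -/
noncomputable def es (S : Finset ℝ) (c : ℝ → ℝ) (a : ℝ) : ℝ := ∑ s ∈ S, c s * Real.exp (s * a)

theorem exp_neg_tendsto {r : ℝ} (hr : r < 0) : Tendsto (fun a : ℝ => Real.exp (r * a)) atTop (𝓝 0) := by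
  apply Real.tendsto_exp_atBot.comp
  exact tendsto_id.const_mul_atTop_of_neg hr

theorem es_tendsto {S : Finset ℝ} {c : ℝ → ℝ} (h : ∀ s ∈ S, 0 ≤ s → c s = 0) :
    Tendsto (es S c) atTop (𝓝 0) := by
  have : (0 : ℝ) = ∑ s ∈ S, (0 : ℝ) := by simp
  rw [this]
  unfold es
  refine tendsto_finsetSum _ fun s hs => ?_
  rcases lt_or_ge s 0 with h0 | h0
  · have := (exp_neg_tendsto h0).const_mul (c s)
    simpa using this
  · rw [h s hs h0]
    simp

theorem es_coeff {S : Finset ℝ} {c : ℝ → ℝ} {a : ℕ → ℝ} (ha : Tendsto a atTop atTop)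
    (h : Tendsto (fun k => es S c (a k)) atTop (𝓝 0)) : ∀ s ∈ S, 0 ≤ s → c s = 0 := by
  by_contra hcon
  push Not at hcon
  obtain ⟨s0, hs0, hs0', hs0c⟩ := hcon
  set B := S.filter (fun s => 0 ≤ s ∧ c s ≠ 0) with hB
  have hBne : B.Nonempty := ⟨s0, by simp [hB, hs0, hs0', hs0c]⟩
  obtain ⟨m, hm, hmax⟩ := B.exists_max_image id hBne
  have hmS : m ∈ S ∧ 0 ≤ m ∧ c m ≠ 0 := by simpa [hB] using hm
  obtain ⟨hmS1, hm0, hmc⟩ := hmS
  have h1 : Tendsto (fun k => es S c (a k) * Real.exp (-(m * a k))) atTop (𝓝 (c m)) := by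
    have e : ∀ k, es S c (a k) * Real.exp (-(m * a k)) = ∑ s ∈ S, c s * Real.exp ((s - m) * a k) := by
      intro k
      unfold es
      rw [Finset.sum_mul]
      refine Finset.sum_congr rfl fun s _ => ?_
      rw [mul_assoc, ← Real.exp_add]
      ring_nf
    simp_rw [e]
    have e2 : c m = ∑ s ∈ S, if s = m then c m else 0 := by
      simp [hmS1]
    rw [e2]
    refine tendsto_finsetSum _ fun s hs => ?_
    rcases lt_trichotomy s m with h0 | h0 | h0
    · have h3 := ((exp_neg_tendsto (sub_neg.2 h0)).comp ha).const_mul (c s)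
      simpa [h0.ne] using h3
    · subst h0
      simp
    · have hc0 : c s = 0 := by
        by_contra hne
        have := hmax s (by simp [hB, hs, hne]; linarith)
        simp at this
        linarith
      simp [hc0, h0.ne']
  have h2 : Tendsto (fun k => es S c (a k) * Real.exp (-(m * a k))) atTop (𝓝 0) := by
    have hn : Tendsto (fun k => ‖es S c (a k)‖) atTop (𝓝 0) := by
      have := h.norm
      rwa [norm_zero] at this
    refine squeeze_zero_norm' ?_ hn
    filter_upwards [ha.eventually_ge_atTop 0] with k hk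
    rw [norm_mul, Real.norm_of_nonneg (Real.exp_pos _).le]
    have : Real.exp (-(m * a k)) ≤ 1 := Real.exp_le_one_iff.2 (by nlinarith)
    calc ‖es S c (a k)‖ * Real.exp (-(m * a k)) ≤ ‖es S c (a k)‖ * 1 := by gcongr
      _ = _ := mul_one _
  exact hmc (tendsto_nhds_unique h1 h2)

variable {ι : Type*} [Fintype ι] [DecidableEq ι]

/-- the value of the polynomial `f` in the entries of the matrix `g` -/
noncomputable def ev (f : MvPolynomial (ι × ι) ℝ) (g : Matrix ι ι ℝ) : ℝ :=
  MvPolynomial.eval (fun p => g p.1 p.2) f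

/-- the exponent of a monomial along the flow with weights `μ` -/
noncomputable def lam (μ : ι → ℝ) (d : (ι × ι) →₀ ℕ) : ℝ := ∑ p : ι × ι, (d p : ℝ) * μ p.1

/-- the part of `f` of exponent `s` -/
noncomputable def cs (μ : ι → ℝ) (f : MvPolynomial (ι × ι) ℝ) (s : ℝ) : MvPolynomial (ι × ι) ℝ :=
  ∑ d ∈ f.support.filter (fun d => lam μ d = s), MvPolynomial.monomial d (f.coeff d)

theorem ev_eq (f : MvPolynomial (ι × ι) ℝ) (g : Matrix ι ι ℝ) :
    ev f g = ∑ d ∈ f.support, f.coeff d * ∏ p : ι × ι, g p.1 p.2 ^ d p := by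
  unfold ev
  rw [MvPolynomial.eval_eq']

theorem ev_cs (μ : ι → ℝ) (f : MvPolynomial (ι × ι) ℝ) (s : ℝ) (g : Matrix ι ι ℝ) :
    ev (cs μ f s) g = ∑ d ∈ f.support.filter (fun d => lam μ d = s),
      f.coeff d * ∏ p : ι × ι, g p.1 p.2 ^ d p := by
  unfold ev cs
  rw [map_sum]
  refine Finset.sum_congr rfl fun d _ => ?_
  rw [MvPolynomial.eval_monomial]
  congr 1
  rw [Finsupp.prod_fintype _ _ (by simp)]

/-- the diagonal flow -/
noncomputable def fl (μ : ι → ℝ) (a : ℝ) : Matrix ι ι ℝ := Matrix.diagonal (fun i => Real.exp (a * μ i))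

theorem ev_flow (μ : ι → ℝ) (f : MvPolynomial (ι × ι) ℝ) (g : Matrix ι ι ℝ) (a : ℝ) :
    ev f (fl μ a * g) = es (f.support.image (lam μ)) (fun s => ev (cs μ f s) g) a := by
  unfold es
  simp_rw [ev_cs, Finset.sum_mul]
  rw [ev_eq]
  rw [← Finset.sum_fiberwise_of_maps_to (s := f.support) (t := f.support.image (lam μ)) (g := lam μ)
    (fun d hd => Finset.mem_image_of_mem _ hd)]
  refine Finset.sum_congr rfl fun s _ => ?_
  refine Finset.sum_congr rfl fun d hd => ?_
  have hs : lam μ d = s := (Finset.mem_filter.1 hd).2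
  rw [mul_assoc]
  congr 1
  have : ∀ p : ι × ι, (fl μ a * g) p.1 p.2 = Real.exp (a * μ p.1) * g p.1 p.2 := by
    intro p
    unfold fl
    rw [Matrix.diagonal_mul]
  simp_rw [this, mul_pow]
  rw [Finset.prod_mul_distrib, mul_comm]
  congr 1
  rw [← hs]
  unfold lam
  rw [Finset.sum_mul, Real.exp_sum]
  refine Finset.prod_congr rfl fun p _ => ?_
  rw [← Real.exp_nat_mul]
  ring_nf

/-- the set of matrices at which `f` tends to zero along the flow -/
def Oset (μ : ι → ℝ) (f : MvPolynomial (ι × ι) ℝ) : Set (Matrix ι ι ℝ) :=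
  {g | ∀ s ∈ f.support.image (lam μ), 0 ≤ s → ev (cs μ f s) g = 0}

theorem mem_Oset_of_seq {μ : ι → ℝ} {f : MvPolynomial (ι × ι) ℝ} {g : Matrix ι ι ℝ} {a : ℕ → ℝ}
    (ha : Tendsto a atTop atTop) (h : Tendsto (fun k => ev f (fl μ (a k) * g)) atTop (𝓝 0)) :
    g ∈ Oset μ f := by
  simp_rw [ev_flow] at h
  exact es_coeff ha h

theorem tendsto_of_mem_Oset {μ : ι → ℝ} {f : MvPolynomial (ι × ι) ℝ} {g : Matrix ι ι ℝ}
    (h : g ∈ Oset μ f) : Tendsto (fun a => ev f (fl μ a * g)) atTop (𝓝 0) := by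
  simp_rw [ev_flow]
  exact es_tendsto h

theorem continuous_ev (f : MvPolynomial (ι × ι) ℝ) : Continuous (ev f : Matrix ι ι ℝ → ℝ) := by
  have : (ev f : Matrix ι ι ℝ → ℝ) = fun g => ∑ d ∈ f.support, f.coeff d * ∏ p : ι × ι, g p.1 p.2 ^ d p := by
    funext g
    exact ev_eq f g
  rw [this]
  fun_prop

theorem isClosed_Oset (μ : ι → ℝ) (f : MvPolynomial (ι × ι) ℝ) : IsClosed (Oset μ f) := by
  have : Oset μ f = ⋂ s ∈ f.support.image (lam μ), ⋂ (_ : 0 ≤ s), {g | ev (cs μ f s) g = 0} := by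
    ext g
    simp [Oset]
  rw [this]
  refine isClosed_biInter fun s _ => isClosed_iInter fun _ => ?_
  exact isClosed_eq (continuous_ev _) continuous_const

/-- restriction of a polynomial function to a line: zero set finite or everything -/
theorem line_zero (P : MvPolynomial (ι × ι) ℝ) (X Y : Matrix ι ι ℝ) :
    {t : ℝ | ev P (X + t • Y) = 0} = Set.univ ∨ {t : ℝ | ev P (X + t • Y) = 0}.Finite := by
  set Q : Polynomial ℝ := MvPolynomial.eval₂ Polynomial.C
    (fun p : ι × ι => Polynomial.C (X p.1 p.2) + Polynomial.X * Polynomial.C (Y p.1 p.2)) P with hQ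
  have hev : ∀ t : ℝ, Q.eval t = ev P (X + t • Y) := by
    intro t
    rw [hQ, MvPolynomial.polynomial_eval_eval₂]
    unfold ev
    have e1 : (Polynomial.evalRingHom t).comp Polynomial.C = RingHom.id ℝ := by
      ext x
      simp
    rw [e1]
    rw [← MvPolynomial.eval₂_id]
    congr 1
    funext p
    simp
    ring
  by_cases h0 : Q = 0
  · left
    refine Set.eq_univ_of_forall fun t => ?_
    change ev P (X + t • Y) = 0
    rw [← hev t, h0, Polynomial.eval_zero]
  · right
    have : {t : ℝ | ev P (X + t • Y) = 0} ⊆ {t | Q.IsRoot t} := by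
      intro t ht
      have ht' : ev P (X + t • Y) = 0 := ht
      change Q.IsRoot t
      rw [Polynomial.IsRoot, hev t, ht']
    exact (Polynomial.finite_setOfPred_isRoot h0).subset this

theorem line_Oset (μ : ι → ℝ) (f : MvPolynomial (ι × ι) ℝ) (X Y : Matrix ι ι ℝ) :
    {t : ℝ | X + t • Y ∈ Oset μ f} = Set.univ ∨ {t : ℝ | X + t • Y ∈ Oset μ f}.Finite := by
  by_cases h : ∀ s ∈ f.support.image (lam μ), 0 ≤ s → {t : ℝ | ev (cs μ f s) (X + t • Y) = 0} = Set.univ
  · left
    refine Set.eq_univ_of_forall fun t => ?_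
    intro s hs hs0
    have := h s hs hs0
    have ht : t ∈ {t : ℝ | ev (cs μ f s) (X + t • Y) = 0} := by rw [this]; trivial
    exact ht
  · right
    push Not at h
    obtain ⟨s, hs, hs0, hne⟩ := h
    refine ((line_zero (cs μ f s) X Y).resolve_left hne).subset ?_
    intro t ht
    exact ht s hs hs0

end Pool.Agent.E8helper98.WD
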