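import Pool.Agent.E8helper98.WD.Rep
import Pool.Agent.E8helper98.WD.ExpSum

set_option autoImplicit false
set_option linter.unusedSectionVars false

/-!
# The nested construction
-/

namespace Pool.Agent.E8helper98.WD

open Filter Topology Matrix Matrix.SpecialLinearGroup

variable {ι : Type*} [Fintype ι] [DecidableEq ι]

instance : LocallyCompactSpace (Matrix.SpecialLinearGroup ι ℝ) := by
  have : LocallyCompactSpace (Matrix ι ι ℝ) := inferInstanceAs (LocallyCompactSpace (ι → ι → ℝ))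
  exact isClosedEmbedding_val.locallyCompactSpace

instance : T2Space (Matrix.SpecialLinearGroup ι ℝ) := by
  have : T2Space (Matrix ι ι ℝ) := inferInstanceAs (T2Space (ι → ι → ℝ))
  exact isClosedEmbedding_val.isEmbedding.t2Space

/-- a short integral vector or covector at time `a` -/
def Con (μ : ι → ℝ) (ε a : ℝ) : Set (Matrix.SpecialLinearGroup ι ℝ) :=
  {g | (∃ u : ι → ℤ, u ≠ 0 ∧ ‖(fl μ a * (g : Matrix ι ι ℝ)) *ᵥ (fun i => (u i : ℝ))‖ < ε) ∨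
       (∃ u : ι → ℤ, u ≠ 0 ∧ ‖(fun i => (u i : ℝ)) ᵥ* (((g⁻¹ : (Matrix.SpecialLinearGroup ι ℝ)) : Matrix ι ι ℝ) * fl μ (-a))‖ < ε)}

theorem Con_mono {μ : ι → ℝ} {ε ε' a : ℝ} (h : ε ≤ ε') : Con (ι := ι) μ ε a ⊆ Con μ ε' a := by
  rintro g (⟨u, hu, h1⟩ | ⟨u, hu, h1⟩)
  · exact Or.inl ⟨u, hu, h1.trans_le h⟩
  · exact Or.inr ⟨u, hu, h1.trans_le h⟩

theorem continuous_fl (μ : ι → ℝ) : Continuous (fun a : ℝ => fl μ a) := by
  unfold fl
  refine Continuous.matrix_diagonal ?_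
  fun_prop

theorem isOpen_Con (μ : ι → ℝ) (ε : ℝ) : IsOpen {q : (Matrix.SpecialLinearGroup ι ℝ) × ℝ | q.1 ∈ Con μ ε q.2} := by
  have hc : Continuous (fun g : (Matrix.SpecialLinearGroup ι ℝ) => (g : Matrix ι ι ℝ)) := continuous_subtype_val
  have hci : Continuous (fun g : (Matrix.SpecialLinearGroup ι ℝ) => ((g⁻¹ : (Matrix.SpecialLinearGroup ι ℝ)) : Matrix ι ι ℝ)) := hc.comp continuous_inv
  have e : {q : (Matrix.SpecialLinearGroup ι ℝ) × ℝ | q.1 ∈ Con μ ε q.2} =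
      (⋃ u : ι → ℤ, {q : (Matrix.SpecialLinearGroup ι ℝ) × ℝ | u ≠ 0 ∧ ‖(fl μ q.2 * (q.1 : Matrix ι ι ℝ)) *ᵥ (fun i => (u i : ℝ))‖ < ε}) ∪
      (⋃ u : ι → ℤ, {q : (Matrix.SpecialLinearGroup ι ℝ) × ℝ | u ≠ 0 ∧
        ‖(fun i => (u i : ℝ)) ᵥ* (((q.1⁻¹ : (Matrix.SpecialLinearGroup ι ℝ)) : Matrix ι ι ℝ) * fl μ (-q.2))‖ < ε}) := by
    ext q
    simp [Con]
  rw [e]
  refine IsOpen.union (isOpen_iUnion fun u => ?_) (isOpen_iUnion fun u => ?_)
  · refine IsOpen.and isOpen_const (isOpen_lt ?_ continuous_const)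
    refine Continuous.norm ?_
    refine Continuous.matrix_mulVec ?_ continuous_const
    exact ((continuous_fl μ).comp continuous_snd).matrix_mul (hc.comp continuous_fst)
  · refine IsOpen.and isOpen_const (isOpen_lt ?_ continuous_const)
    refine Continuous.norm ?_
    refine Continuous.matrix_vecMul continuous_const ?_
    exact (hci.comp continuous_fst).matrix_mul ((continuous_fl μ).comp continuous_snd.neg)

variable {I : Set ι} {p m : ι}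

/-- rational matrices -/
def IsRat (g : (Matrix.SpecialLinearGroup ι ℝ)) : Prop := ∃ q : Matrix.SpecialLinearGroup ι ℚ, g = SpecialLinearGroup.map (algebraMap ℚ ℝ) q

theorem clear_den (r : ι → ℚ) (hr : r ≠ 0) : ∃ D : ℕ, 0 < D ∧ ∃ u : ι → ℤ, u ≠ 0 ∧ ∀ i, (u i : ℚ) = D * r i := by
  refine ⟨∏ i, (r i).den, Finset.prod_pos fun i _ => (r i).pos, fun i => (∏ j ∈ Finset.univ.erase i, ((r j).den : ℤ)) * (r i).num, ?_, ?_⟩
  · intro h
    apply hr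
    funext i
    have h1 := congrFun h i
    simp only [Pi.zero_apply, mul_eq_zero] at h1
    rcases h1 with h1 | h1
    · exfalso
      rw [Finset.prod_eq_zero_iff] at h1
      obtain ⟨j, _, hj⟩ := h1
      exact (r j).den_ne_zero (by exact_mod_cast hj)
    · rw [Rat.num_eq_zero] at h1
      simp [h1]
  · intro i
    push_cast
    rw [← Finset.mul_prod_erase Finset.univ (fun j => ((r j).den : ℚ)) (Finset.mem_univ i)]
    have := Rat.mul_den_eq_num (r i)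
    rw [mul_comm ((r i).den : ℚ), mul_assoc, mul_comm ((r i).den : ℚ), this]

theorem rat_vec {g : (Matrix.SpecialLinearGroup ι ℝ)} (hg : IsRat g) (k : ι) :
    ∃ u : ι → ℤ, u ≠ 0 ∧ ∃ c : ℝ, (g : Matrix ι ι ℝ) *ᵥ (fun i => (u i : ℝ)) = Pi.single k c := by
  obtain ⟨q, rfl⟩ := hg
  set r : ι → ℚ := ((q⁻¹ : Matrix.SpecialLinearGroup ι ℚ) : Matrix ι ι ℚ) *ᵥ Pi.single k 1 with hr
  have hqr : (q : Matrix ι ι ℚ) *ᵥ r = Pi.single k 1 := by
    rw [hr, mulVec_mulVec, ← coe_mul, mul_inv_cancel, coe_one, one_mulVec]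
  have hr0 : r ≠ 0 := by
    intro h
    rw [h, mulVec_zero] at hqr
    have := congrFun hqr k
    simp at this
  obtain ⟨D, hD, u, hu, hur⟩ := clear_den r hr0
  refine ⟨u, hu, D, ?_⟩
  funext i
  have h1 : ∑ j, (q : Matrix ι ι ℚ) i j * r j = (Pi.single k (1 : ℚ) : ι → ℚ) i := congrFun hqr i
  have h2 : ∑ j, (q : Matrix ι ι ℚ) i j * (u j : ℚ) = D * (Pi.single k (1 : ℚ) : ι → ℚ) i := by
    rw [← h1, Finset.mul_sum]
    refine Finset.sum_congr rfl fun j _ => ?_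
    rw [hur]
    ring
  have h3 := congrArg (fun x : ℚ => (x : ℝ)) h2
  simp only [Rat.cast_sum, Rat.cast_mul, Rat.cast_natCast, Rat.cast_intCast] at h3
  have h4 : (((SpecialLinearGroup.map (algebraMap ℚ ℝ) q : (Matrix.SpecialLinearGroup ι ℝ)) : Matrix ι ι ℝ) *ᵥ (fun i => (u i : ℝ))) i =
      ∑ j, ((q : Matrix ι ι ℚ) i j : ℝ) * (u j : ℝ) := by
    simp [mulVec, dotProduct]
  rw [h4, h3]
  by_cases hik : i = k
  · subst hik
    simp
  · simp [hik]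

theorem rat_covec {g : (Matrix.SpecialLinearGroup ι ℝ)} (hg : IsRat g) (k : ι) :
    ∃ u : ι → ℤ, u ≠ 0 ∧ ∃ c : ℝ, (fun i => (u i : ℝ)) ᵥ* ((g⁻¹ : (Matrix.SpecialLinearGroup ι ℝ)) : Matrix ι ι ℝ) = Pi.single k c := by
  obtain ⟨q, rfl⟩ := hg
  set r : ι → ℚ := Pi.single k 1 ᵥ* (q : Matrix ι ι ℚ) with hr
  have hqr : r ᵥ* ((q⁻¹ : Matrix.SpecialLinearGroup ι ℚ) : Matrix ι ι ℚ) = Pi.single k 1 := by
    rw [hr, vecMul_vecMul, ← coe_mul, mul_inv_cancel, coe_one, vecMul_one]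
  have hr0 : r ≠ 0 := by
    intro h
    rw [h, zero_vecMul] at hqr
    have := congrFun hqr k
    simp at this
  obtain ⟨D, hD, u, hu, hur⟩ := clear_den r hr0
  refine ⟨u, hu, D, ?_⟩
  funext i
  have h1 : ∑ j, r j * ((q⁻¹ : Matrix.SpecialLinearGroup ι ℚ) : Matrix ι ι ℚ) j i =
    (Pi.single k (1 : ℚ) : ι → ℚ) i := congrFun hqr i
  have h2 : ∑ j, (u j : ℚ) * ((q⁻¹ : Matrix.SpecialLinearGroup ι ℚ) : Matrix ι ι ℚ) j i =
      D * (Pi.single k (1 : ℚ) : ι → ℚ) i := by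
    rw [← h1, Finset.mul_sum]
    refine Finset.sum_congr rfl fun j _ => ?_
    rw [hur]
    ring
  have h3 := congrArg (fun x : ℚ => (x : ℝ)) h2
  simp only [Rat.cast_sum, Rat.cast_mul, Rat.cast_natCast, Rat.cast_intCast] at h3
  have h4 : ((fun i => (u i : ℝ)) ᵥ* (((SpecialLinearGroup.map (algebraMap ℚ ℝ) q)⁻¹ : (Matrix.SpecialLinearGroup ι ℝ)) : Matrix ι ι ℝ)) i =
      ∑ j, (u j : ℝ) * (((q⁻¹ : Matrix.SpecialLinearGroup ι ℚ) : Matrix ι ι ℚ) j i : ℝ) := by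
    rw [← map_inv]
    rfl
  rw [h4, h3]
  by_cases hik : i = k
  · subst hik
    simp
  · simp [hik]

/-- the weights: `μ p > 0 > μ m` -/
structure Wt (μ : ι → ℝ) (p m : ι) : Prop where
  hp : 0 < μ p
  hm : μ m < 0

/-- contraction data at `g`, valid beyond time `A` -/
structure Z (μ : ι → ℝ) (p m : ι) (g : (Matrix.SpecialLinearGroup ι ℝ)) (A ε : ℝ) : Prop where
  z1 : ∃ u : ι → ℤ, u ≠ 0 ∧ ∃ c : ℝ, (g : Matrix ι ι ℝ) *ᵥ (fun i => (u i : ℝ)) = Pi.single m c ∧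
    |c| * Real.exp (A * μ m) < ε
  z2 : ∃ u : ι → ℤ, u ≠ 0 ∧ ∃ c : ℝ, (fun i => (u i : ℝ)) ᵥ* ((g⁻¹ : (Matrix.SpecialLinearGroup ι ℝ)) : Matrix ι ι ℝ) = Pi.single p c ∧
    |c| * Real.exp (-A * μ p) < ε
  z3 : ∃ u : ι → ℤ, u ≠ 0 ∧ ∃ c : ℝ, (g : Matrix ι ι ℝ) *ᵥ (fun i => (u i : ℝ)) = Pi.single p c ∧
    |c| * Real.exp (-A * μ p) < ε
  z4 : ∃ u : ι → ℤ, u ≠ 0 ∧ ∃ c : ℝ, (fun i => (u i : ℝ)) ᵥ* ((g⁻¹ : (Matrix.SpecialLinearGroup ι ℝ)) : Matrix ι ι ℝ) = Pi.single m c ∧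
    |c| * Real.exp (A * μ m) < ε

theorem small_neg {μ : ι → ℝ} {m : ι} (hm : μ m < 0) (c ε : ℝ) (hε : 0 < ε) :
    ∀ᶠ A : ℝ in atTop, |c| * Real.exp (A * μ m) < ε := by
  have h := (exp_neg_tendsto hm).const_mul |c|
  rw [mul_zero] at h
  filter_upwards [h.eventually_lt_const hε] with A hA
  rwa [mul_comm A]

theorem small_pos {μ : ι → ℝ} {p : ι} (hp : 0 < μ p) (c ε : ℝ) (hε : 0 < ε) :
    ∀ᶠ A : ℝ in atTop, |c| * Real.exp (-A * μ p) < ε := by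
  have h := (exp_neg_tendsto (neg_lt_zero.2 hp)).const_mul |c|
  rw [mul_zero] at h
  filter_upwards [h.eventually_lt_const hε] with A hA
  have e : -A * μ p = -μ p * A := by ring
  rw [e]
  exact hA

theorem exists_Z {μ : ι → ℝ} {p m : ι} (hw : Wt μ p m) {g : (Matrix.SpecialLinearGroup ι ℝ)} (hg : IsRat g) {ε : ℝ} (hε : 0 < ε) (A0 : ℝ) :
    ∃ A, A0 ≤ A ∧ Z μ p m g A ε := by
  obtain ⟨u1, h1, c1, e1⟩ := rat_vec hg m
  obtain ⟨u2, h2, c2, e2⟩ := rat_covec hg p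
  obtain ⟨u3, h3, c3, e3⟩ := rat_vec hg p
  obtain ⟨u4, h4, c4, e4⟩ := rat_covec hg m
  obtain ⟨A, ⟨⟨⟨hA1, hA2⟩, hA3⟩, hA4⟩, hA⟩ := (((((small_neg hw.hm c1 ε hε).and
    (small_pos hw.hp c2 ε hε)).and (small_pos hw.hp c3 ε hε)).and (small_neg hw.hm c4 ε hε)).and
      (eventually_ge_atTop A0)).exists
  exact ⟨A, hA, ⟨⟨u1, h1, c1, e1, hA1⟩, ⟨u2, h2, c2, e2, hA2⟩, ⟨u3, h3, c3, e3, hA3⟩, ⟨u4, h4, c4, e4, hA4⟩⟩⟩

theorem norm_single (k : ι) (c : ℝ) : ‖(Pi.single k c : ι → ℝ)‖ = |c| := by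
  rw [Pi.norm_single, Real.norm_eq_abs]

theorem con_vec {μ : ι → ℝ} {g : (Matrix.SpecialLinearGroup ι ℝ)} {u : ι → ℤ} (hu : u ≠ 0) {k : ι} {c : ℝ}
    (h : (g : Matrix ι ι ℝ) *ᵥ (fun i => (u i : ℝ)) = Pi.single k c) {a ε : ℝ}
    (hc : |c| * Real.exp (a * μ k) < ε) : g ∈ Con μ ε a := by
  left
  refine ⟨u, hu, ?_⟩
  rw [← mulVec_mulVec, h]
  unfold fl
  rw [diagonal_mulVec_single, norm_single, abs_mul, abs_of_pos (Real.exp_pos _), mul_comm]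
  exact hc

theorem con_covec {μ : ι → ℝ} {g : (Matrix.SpecialLinearGroup ι ℝ)} {u : ι → ℤ} (hu : u ≠ 0) {k : ι} {c : ℝ}
    (h : (fun i => (u i : ℝ)) ᵥ* ((g⁻¹ : (Matrix.SpecialLinearGroup ι ℝ)) : Matrix ι ι ℝ) = Pi.single k c) {a ε : ℝ}
    (hc : |c| * Real.exp (-a * μ k) < ε) : g ∈ Con μ ε a := by
  right
  refine ⟨u, hu, ?_⟩
  rw [← vecMul_vecMul, h]
  unfold fl
  rw [single_vecMul_diagonal, norm_single, abs_mul, abs_of_pos (Real.exp_pos _)]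
  exact hc

theorem T_mulVec (e : Al I p m) (t : ℝ) {k : ι} (hk : e.j ≠ k) (c : ℝ) :
    (T e t : Matrix ι ι ℝ) *ᵥ Pi.single k c = Pi.single k c := by
  change (1 + single e.i e.j t) *ᵥ Pi.single k c = _
  rw [add_mulVec, one_mulVec]
  have : (single e.i e.j t : Matrix ι ι ℝ) *ᵥ Pi.single k c = 0 := by
    funext a
    simp [mulVec, dotProduct, single_apply, Pi.single_apply]
    grind
  rw [this, add_zero]

theorem T_vecMul (e : Al I p m) (t : ℝ) {k : ι} (hk : e.i ≠ k) (c : ℝ) :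
    Pi.single k c ᵥ* (((T e t)⁻¹ : (Matrix.SpecialLinearGroup ι ℝ)) : Matrix ι ι ℝ) = Pi.single k c := by
  rw [T_inv]
  change Pi.single k c ᵥ* (1 + single e.i e.j (-t)) = _
  rw [vecMul_add, vecMul_one]
  have : Pi.single k c ᵥ* (single e.i e.j (-t) : Matrix ι ι ℝ) = 0 := by
    funext a
    change ∑ i, (Pi.single k c : ι → ℝ) i * (single e.i e.j (-t) : Matrix ι ι ℝ) i a = 0
    refine Finset.sum_eq_zero fun i _ => ?_
    rw [single_apply]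
    by_cases h : e.i = i ∧ e.j = a
    · have : i ≠ k := by rw [← h.1]; exact hk
      simp [this]
    · simp [h]
  rw [this, add_zero]

/-- after an allowed move the old contraction data still work, at all later times -/
theorem move_con {μ : ι → ℝ} (hw : Wt μ p m) {g : (Matrix.SpecialLinearGroup ι ℝ)} {A ε : ℝ} (hz : Z μ p m g A ε)
    (e : Al I p m) (t : ℝ) {a : ℝ} (ha : A ≤ a) :
    T e t * g ∈ Con μ ε a ∧ T e t * g ∈ Con μ ε (-a) := by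
  have mneg : ∀ c : ℝ, |c| * Real.exp (A * μ m) < ε → |c| * Real.exp (a * μ m) < ε := by
    intro c hc
    refine lt_of_le_of_lt ?_ hc
    have : Real.exp (a * μ m) ≤ Real.exp (A * μ m) := Real.exp_le_exp.2 (by nlinarith [hw.hm])
    gcongr
  have mpos : ∀ c : ℝ, |c| * Real.exp (-A * μ p) < ε → |c| * Real.exp (-a * μ p) < ε := by
    intro c hc
    refine lt_of_le_of_lt ?_ hc
    have : Real.exp (-a * μ p) ≤ Real.exp (-A * μ p) := Real.exp_le_exp.2 (by nlinarith [hw.hp])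
    gcongr
  constructor
  · by_cases hj : e.j = m
    · have hi : e.i ≠ p := fun h => e.h1 ⟨h, hj⟩
      obtain ⟨u, hu, c, h1, h2⟩ := hz.z2
      refine con_covec hu (c := c) (k := p) ?_ (mpos c h2)
      rw [_root_.mul_inv_rev, coe_mul, ← vecMul_vecMul, h1, T_vecMul e t hi]
    · obtain ⟨u, hu, c, h1, h2⟩ := hz.z1
      refine con_vec hu (c := c) (k := m) ?_ (mneg c h2)
      rw [coe_mul, ← mulVec_mulVec, h1, T_mulVec e t hj]
  · by_cases hj : e.j = p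
    · have hi : e.i ≠ m := fun h => e.h2 ⟨h, hj⟩
      obtain ⟨u, hu, c, h1, h2⟩ := hz.z4
      refine con_covec hu (c := c) (k := m) ?_ ?_
      · rw [_root_.mul_inv_rev, coe_mul, ← vecMul_vecMul, h1, T_vecMul e t hi]
      · rw [neg_neg]
        exact mneg c h2
    · obtain ⟨u, hu, c, h1, h2⟩ := hz.z3
      refine con_vec hu (c := c) (k := p) ?_ (mpos c h2)
      rw [coe_mul, ← mulVec_mulVec, h1, T_mulVec e t hj]

end Pool.Agent.E8helper98.WD
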