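import Pool.Agent.E8helper98.WD.Quot

set_option autoImplicit false
set_option linter.unusedSectionVars false

/-!
# Divergence of the whole orbit; density of the rational points
-/

namespace Pool.Agent.E8helper98.WD

open Filter Topology Matrix Matrix.SpecialLinearGroup Module

variable {ι : Type*} [Fintype ι] [DecidableEq ι]

theorem dexp_inv (x : ι → ℝ) (hx : ∑ i, x i = 0) (hx' : ∑ i, (-x) i = 0) :
    (dexp x hx)⁻¹ = dexp (-x) hx' := by
  rw [inv_eq_iff_mul_eq_one]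
  apply Subtype.ext
  rw [coe_mul]
  change diagonal (fun i => Real.exp (x i)) * diagonal (fun i => Real.exp ((-x) i)) = 1
  rw [diagonal_mul_diagonal, ← diagonal_one]
  congr 1
  funext i
  rw [← Real.exp_add]
  simp

theorem dexp_add (x y : ι → ℝ) (hx : ∑ i, x i = 0) (hy : ∑ i, y i = 0) (hxy : ∑ i, (x + y) i = 0) :
    dexp (x + y) hxy = dexp y hy * dexp x hx := by
  apply Subtype.ext
  rw [coe_mul]
  change diagonal (fun i => Real.exp ((x + y) i)) =
    diagonal (fun i => Real.exp (y i)) * diagonal (fun i => Real.exp (x i))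
  rw [diagonal_mul_diagonal]
  congr 1
  funext i
  rw [← Real.exp_add, Pi.add_apply, add_comm]

theorem sum_neg_zero {x : ι → ℝ} (hx : ∑ i, x i = 0) : ∑ i, (-x) i = 0 := by
  simp [Finset.sum_neg_distrib, hx]

theorem coe_dexp_inv (x : ι → ℝ) (hx : ∑ i, x i = 0) :
    (((dexp x hx)⁻¹ : (Matrix.SpecialLinearGroup ι ℝ)) : Matrix ι ι ℝ) = diagonal (fun i => Real.exp (-x i)) := by
  rw [dexp_inv x hx (sum_neg_zero hx)]
  rfl

/-- `Con` is `Short` along the flow -/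
theorem short_of_con {μ : ι → ℝ} {ε a : ℝ} {g : (Matrix.SpecialLinearGroup ι ℝ)} (h : g ∈ Con μ ε a) (ha : ∑ i, (a • μ) i = 0) :
    Short (dexp (a • μ) ha * g) ε := by
  rcases h with ⟨u, hu, h1⟩ | ⟨u, hu, h1⟩
  · left
    refine ⟨u, hu, ?_⟩
    rw [coe_mul]
    exact h1
  · right
    refine ⟨u, hu, ?_⟩
    rw [_root_.mul_inv_rev, coe_mul, coe_dexp_inv]
    have e : (diagonal (fun i => Real.exp (-(a • μ) i)) : Matrix ι ι ℝ) = fl μ (-a) := by
      unfold fl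
      congr 1
      funext i
      simp
    rw [e]
    exact h1

theorem diag_mulVec_norm (w v : ι → ℝ) :
    ‖(diagonal (fun i => Real.exp (w i)) : Matrix ι ι ℝ) *ᵥ v‖ ≤ Real.exp ‖w‖ * ‖v‖ := by
  refine (pi_norm_le_iff_of_nonneg (by positivity)).2 fun i => ?_
  rw [mulVec_diagonal, norm_mul, Real.norm_of_nonneg (Real.exp_pos _).le]
  have h1 : w i ≤ ‖w‖ := (le_abs_self _).trans (norm_le_pi_norm w i)
  have h2 : Real.exp (w i) ≤ Real.exp ‖w‖ := Real.exp_le_exp.2 h1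
  exact mul_le_mul h2 (norm_le_pi_norm v i) (norm_nonneg _) (Real.exp_pos _).le

theorem diag_vecMul_norm (w v : ι → ℝ) :
    ‖v ᵥ* (diagonal (fun i => Real.exp (w i)) : Matrix ι ι ℝ)‖ ≤ Real.exp ‖w‖ * ‖v‖ := by
  rw [← mulVec_transpose, diagonal_transpose]
  exact diag_mulVec_norm w v

theorem short_dexp {h : (Matrix.SpecialLinearGroup ι ℝ)} {ε : ℝ} (hs : Short h ε) (w : ι → ℝ) (hw : ∑ i, w i = 0) {M : ℝ} (hM : ‖w‖ ≤ M) :
    Short (dexp w hw * h) (Real.exp M * ε) := by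
  have hexp : Real.exp ‖w‖ ≤ Real.exp M := Real.exp_le_exp.2 hM
  rcases hs with ⟨u, hu, h1⟩ | ⟨u, hu, h1⟩
  · left
    refine ⟨u, hu, ?_⟩
    rw [coe_mul, ← mulVec_mulVec]
    refine (diag_mulVec_norm w _).trans_lt ?_
    calc Real.exp ‖w‖ * ‖(h : Matrix ι ι ℝ) *ᵥ (fun i => (u i : ℝ))‖
        ≤ Real.exp M * ‖(h : Matrix ι ι ℝ) *ᵥ (fun i => (u i : ℝ))‖ := by gcongr
      _ < _ := by gcongr
  · right
    refine ⟨u, hu, ?_⟩
    rw [_root_.mul_inv_rev, coe_mul, ← vecMul_vecMul, coe_dexp_inv]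
    refine (diag_vecMul_norm (fun i => -w i) _).trans_lt ?_
    have hn : ‖(fun i => -w i)‖ = ‖w‖ := norm_neg w
    rw [hn]
    calc Real.exp ‖w‖ * ‖(fun i => (u i : ℝ)) ᵥ* ((h⁻¹ : (Matrix.SpecialLinearGroup ι ℝ)) : Matrix ι ι ℝ)‖
        ≤ Real.exp M * ‖(fun i => (u i : ℝ)) ᵥ* ((h⁻¹ : (Matrix.SpecialLinearGroup ι ℝ)) : Matrix ι ι ℝ)‖ := by gcongr
      _ < _ := by gcongr

/-- the elements of the closure of `H` fix the coordinates outside `I` -/
theorem fix_of_closure {I : Set ι} {p m : ι} {g : (Matrix.SpecialLinearGroup ι ℝ)} (hg : g ∈ closure ((H I p m : Set (Matrix.SpecialLinearGroup ι ℝ)))) {j : ι}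
    (hj : j ∉ I) : (g : Matrix ι ι ℝ) *ᵥ Pi.single j 1 = Pi.single j 1 ∧
      Pi.single j 1 ᵥ* ((g⁻¹ : (Matrix.SpecialLinearGroup ι ℝ)) : Matrix ι ι ℝ) = Pi.single j 1 := by
  have hc1 : Continuous (fun g : (Matrix.SpecialLinearGroup ι ℝ) => (g : Matrix ι ι ℝ)) := continuous_subtype_val
  have hcl : IsClosed {g : (Matrix.SpecialLinearGroup ι ℝ) | (g : Matrix ι ι ℝ) *ᵥ Pi.single j 1 = Pi.single j 1 ∧
      Pi.single j 1 ᵥ* ((g⁻¹ : (Matrix.SpecialLinearGroup ι ℝ)) : Matrix ι ι ℝ) = Pi.single j 1} := by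
    refine IsClosed.inter ?_ ?_
    · exact isClosed_eq (hc1.matrix_mulVec continuous_const) continuous_const
    · exact isClosed_eq (continuous_const.matrix_vecMul (hc1.comp continuous_inv)) continuous_const
  have hsub : (H I p m : Set (Matrix.SpecialLinearGroup ι ℝ)) ⊆ {g : (Matrix.SpecialLinearGroup ι ℝ) | (g : Matrix ι ι ℝ) *ᵥ Pi.single j 1 = Pi.single j 1 ∧
      Pi.single j 1 ᵥ* ((g⁻¹ : (Matrix.SpecialLinearGroup ι ℝ)) : Matrix ι ι ℝ) = Pi.single j 1} := by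
    intro h hh
    have hh' : h ∈ H I p m := hh
    induction hh' using Subgroup.closure_induction with
    | mem x hx =>
      obtain ⟨⟨e, t⟩, rfl⟩ := hx
      exact ⟨T_mulVec e t (fun h => hj (by rw [← h]; exact e.hj)) 1,
        T_vecMul e t (fun h => hj (by rw [← h]; exact e.hi)) 1⟩
    | one =>
      refine ⟨?_, ?_⟩
      · rw [coe_one, one_mulVec]
      · rw [inv_one, coe_one, vecMul_one]
    | mul x y hx hy ihx ihy =>
      obtain ⟨a1, a2⟩ := ihx hx
      obtain ⟨b1, b2⟩ := ihy hy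
      refine ⟨?_, ?_⟩
      · rw [coe_mul, ← mulVec_mulVec, b1, a1]
      · rw [_root_.mul_inv_rev, coe_mul, ← vecMul_vecMul, b2, a2]
    | inv x hx ihx =>
      obtain ⟨a1, a2⟩ := ihx hx
      refine ⟨?_, ?_⟩
      · have : ((x⁻¹ : (Matrix.SpecialLinearGroup ι ℝ)) : Matrix ι ι ℝ) *ᵥ ((x : Matrix ι ι ℝ) *ᵥ Pi.single j 1) = Pi.single j 1 := by
          rw [mulVec_mulVec, ← coe_mul, inv_mul_cancel, coe_one, one_mulVec]
        rwa [a1] at this
      · rw [inv_inv]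
        have : (Pi.single j 1 ᵥ* ((x⁻¹ : (Matrix.SpecialLinearGroup ι ℝ)) : Matrix ι ι ℝ)) ᵥ* (x : Matrix ι ι ℝ) = Pi.single j 1 := by
          rw [vecMul_vecMul, ← coe_mul, inv_mul_cancel, coe_one, vecMul_one]
        rwa [a2] at this
  exact hcl.closure_subset_iff.2 hsub hg

/-- **Divergence of the whole orbit.** -/
theorem diverge (𝔡 : Submodule ℝ (ι → ℝ)) (h𝔡 : ∀ x ∈ 𝔡, ∑ i, x i = 0) (J : Finset ι) (μ : ι → ℝ)
    (hμ : μ ∈ 𝔡) (hsp : ∀ x ∈ 𝔡, (∀ j ∈ J, x j = 0) → ∃ a : ℝ, x = a • μ) {g : (Matrix.SpecialLinearGroup ι ℝ)}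
    (hfix : ∀ j ∈ J, (g : Matrix ι ι ℝ) *ᵥ Pi.single j 1 = Pi.single j 1 ∧
      Pi.single j 1 ᵥ* ((g⁻¹ : (Matrix.SpecialLinearGroup ι ℝ)) : Matrix ι ι ℝ) = Pi.single j 1)
    (hgw : ∀ ε : ℝ, 0 < ε → ∃ A : ℝ, ∀ a, A ≤ a → g ∈ Con μ ε a ∧ g ∈ Con μ ε (-a))
    {ε : ℝ} (hε : 0 < ε) : ∃ R : ℝ, ∀ x, ∀ hx : x ∈ 𝔡, R ≤ ‖x‖ → Short (dexp x (h𝔡 x hx) * g) ε := by
  obtain ⟨C, hC, hdec⟩ := decomp 𝔡 J μ hsp
  obtain ⟨L, hL⟩ : ∃ L : ℝ, 0 ≤ L ∧ Real.exp (-L) < ε := by
    have h1 : Tendsto (fun L : ℝ => Real.exp (-L)) atTop (𝓝 0) := Real.tendsto_exp_neg_atTop_nhds_zero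
    obtain ⟨L, h2, h3⟩ := ((h1.eventually_lt_const hε).and (eventually_ge_atTop 0)).exists
    exact ⟨L, h3, h2⟩
  set M : ℝ := C * L with hM
  have hε2 : 0 < ε * Real.exp (-M) := by positivity
  obtain ⟨A, hA⟩ := hgw _ hε2
  refine ⟨|A| * ‖μ‖ + M + 1, fun x hx hxR => ?_⟩
  by_cases hbig : ∃ j ∈ J, L < |x j|
  · obtain ⟨j, hj, hLj⟩ := hbig
    obtain ⟨f1, f2⟩ := hfix j hj
    have hint : (fun i => (((Pi.single j 1 : ι → ℤ) i : ℤ) : ℝ)) = Pi.single j (1 : ℝ) := by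
      funext i
      by_cases hij : i = j
      · subst hij
        simp
      · simp [hij]
    have hne : (Pi.single j 1 : ι → ℤ) ≠ 0 := by
      intro h0
      have := congrFun h0 j
      simp at this
    rcases lt_or_ge (x j) 0 with hneg | hpos
    · left
      refine ⟨Pi.single j 1, hne, ?_⟩
      rw [hint, coe_mul, ← mulVec_mulVec, f1]
      change ‖(diagonal (fun i => Real.exp (x i)) : Matrix ι ι ℝ) *ᵥ Pi.single j 1‖ < ε
      rw [diagonal_mulVec_single, norm_single, mul_one, abs_of_pos (Real.exp_pos _)]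
      refine lt_of_le_of_lt (Real.exp_le_exp.2 ?_) hL.2
      rw [abs_of_neg hneg] at hLj
      linarith
    · right
      refine ⟨Pi.single j 1, hne, ?_⟩
      rw [hint, _root_.mul_inv_rev, coe_mul, ← vecMul_vecMul, f2, coe_dexp_inv, single_vecMul_diagonal,
        norm_single, one_mul, abs_of_pos (Real.exp_pos _)]
      refine lt_of_le_of_lt (Real.exp_le_exp.2 ?_) hL.2
      rw [abs_of_nonneg hpos] at hLj
      linarith
  · push Not at hbig
    obtain ⟨a, w, hw, hxa, hwn⟩ := hdec x hx L hL.1 hbig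
    have ha𝔡 : a • μ ∈ 𝔡 := 𝔡.smul_mem a hμ
    have hA2 : A ≤ |a| := by
      have h1 : ‖x‖ ≤ |a| * ‖μ‖ + M := by
        rw [hxa]
        refine (norm_add_le _ _).trans ?_
        rw [norm_smul, Real.norm_eq_abs]
        linarith
      by_contra hcon
      push Not at hcon
      have h2 : |a| * ‖μ‖ ≤ |A| * ‖μ‖ := by
        have : |a| ≤ |A| := hcon.le.trans (le_abs_self A)
        gcongr
      linarith
    have hcon : g ∈ Con μ (ε * Real.exp (-M)) a := by
      rcases le_or_gt 0 a with h0 | h0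
      · rw [abs_of_nonneg h0] at hA2
        exact (hA a hA2).1
      · rw [abs_of_neg h0] at hA2
        have := (hA (-a) hA2).2
        rwa [neg_neg] at this
    have h1 := short_of_con hcon (h𝔡 _ ha𝔡)
    have h2 := short_dexp h1 w (h𝔡 w hw) hwn
    have h3 : Real.exp (C * L) * (ε * Real.exp (-M)) = ε := by
      rw [← hM, mul_comm, mul_assoc, ← Real.exp_add]
      simp
    rw [h3, ← mul_assoc] at h2
    have h4 : dexp x (h𝔡 x hx) = dexp w (h𝔡 w hw) * dexp (a • μ) (h𝔡 _ ha𝔡) := by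
      subst hxa
      exact dexp_add (a • μ) w _ _ _
    rw [h4]
    exact h2

theorem clear_mat (M : Matrix ι ι ℚ) : ∃ D : ℕ, 0 < D ∧ ∃ Z : Matrix ι ι ℤ, ∀ i j, (Z i j : ℚ) = D * M i j := by
  by_cases h0 : (fun q : ι × ι => M q.1 q.2) = 0
  · refine ⟨1, one_pos, 0, fun i j => ?_⟩
    have := congrFun h0 (i, j)
    simp only [Pi.zero_apply] at this
    simp [this]
  · obtain ⟨D, hD, u, -, hu⟩ := clear_den (ι := ι × ι) (fun q => M q.1 q.2) h0
    exact ⟨D, hD, fun i j => u (i, j), fun i j => hu (i, j)⟩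

theorem exists_bound (M : Matrix ι ι ℝ) : ∃ B : ℝ, 0 ≤ B ∧ ∀ i j, |M i j| ≤ B := by
  refine ⟨∑ i, ∑ j, |M i j|, by positivity, fun i j => ?_⟩
  exact (Finset.single_le_sum (f := fun j => |M i j|) (fun j _ => abs_nonneg _)
    (Finset.mem_univ j)).trans (Finset.single_le_sum
      (f := fun i => ∑ j, |M i j|) (fun i _ => by positivity) (Finset.mem_univ i))

/-- multiplying on the left by a fixed element and on the right by a rational one -/
theorem short_mul (k : (Matrix.SpecialLinearGroup ι ℝ)) {q : (Matrix.SpecialLinearGroup ι ℝ)} (hq : IsRat q) : ∃ C : ℝ, 0 < C ∧ ∀ (h : (Matrix.SpecialLinearGroup ι ℝ)) (ε : ℝ), 0 < ε →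
    Short h ε → Short (k * h * q) (C * ε) := by
  obtain ⟨r, rfl⟩ := hq
  obtain ⟨D, hD, Z, hZ⟩ := clear_mat ((r⁻¹ : Matrix.SpecialLinearGroup ι ℚ) : Matrix ι ι ℚ)
  obtain ⟨D', hD', Z', hZ'⟩ := clear_mat (r : Matrix ι ι ℚ)
  obtain ⟨B, hB0, hB⟩ := exists_bound (k : Matrix ι ι ℝ)
  obtain ⟨B', hB0', hB'⟩ := exists_bound ((k⁻¹ : (Matrix.SpecialLinearGroup ι ℝ)) : Matrix ι ι ℝ)
  have hDr : (0 : ℝ) < D := by exact_mod_cast hD
  have hDr' : (0 : ℝ) < D' := by exact_mod_cast hD'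
  refine ⟨D * (Fintype.card ι * B + 1) + D' * (Fintype.card ι * B' + 1), by positivity, fun h ε hε hs => ?_⟩
  rcases hs with ⟨u, hu, h1⟩ | ⟨u, hu, h1⟩
  · left
    have hZr : ∀ i, ((Z *ᵥ u) i : ℝ) = D * (((SpecialLinearGroup.map (algebraMap ℚ ℝ) r)⁻¹ : (Matrix.SpecialLinearGroup ι ℝ)) : Matrix ι ι ℝ).mulVec (fun i => (u i : ℝ)) i := by
      intro i
      rw [← map_inv]
      change ((∑ j, Z i j * u j : ℤ) : ℝ) = D * ∑ j, ((((r⁻¹ : Matrix.SpecialLinearGroup ι ℚ) : Matrix ι ι ℚ) i j : ℚ) : ℝ) * (u j : ℝ)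
      rw [Finset.mul_sum]
      push_cast
      refine Finset.sum_congr rfl fun j _ => ?_
      have := congrArg (fun x : ℚ => (x : ℝ)) (hZ i j)
      simp only [Rat.cast_intCast, Rat.cast_mul, Rat.cast_natCast] at this
      rw [this]
      ring
    have hvec : (fun i => ((Z *ᵥ u) i : ℝ)) = (D : ℝ) • ((((SpecialLinearGroup.map (algebraMap ℚ ℝ) r)⁻¹ : (Matrix.SpecialLinearGroup ι ℝ)) : Matrix ι ι ℝ) *ᵥ (fun i => (u i : ℝ))) := by
      funext i
      rw [hZr i]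
      rfl
    have hval : ((k * h * SpecialLinearGroup.map (algebraMap ℚ ℝ) r : (Matrix.SpecialLinearGroup ι ℝ)) : Matrix ι ι ℝ) *ᵥ (fun i => ((Z *ᵥ u) i : ℝ)) =
        (D : ℝ) • ((k : Matrix ι ι ℝ) *ᵥ ((h : Matrix ι ι ℝ) *ᵥ (fun i => (u i : ℝ)))) := by
      rw [hvec, mulVec_smul, mulVec_mulVec, ← coe_mul, mul_inv_cancel_right, coe_mul, ← mulVec_mulVec]
    refine ⟨Z *ᵥ u, ?_, ?_⟩
    · intro h0
      rw [h0] at hvec
      have h2 : (D : ℝ) • ((((SpecialLinearGroup.map (algebraMap ℚ ℝ) r)⁻¹ : (Matrix.SpecialLinearGroup ι ℝ)) : Matrix ι ι ℝ) *ᵥ (fun i => (u i : ℝ))) = 0 := by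
        rw [← hvec]
        funext i
        simp
      rw [smul_eq_zero] at h2
      rcases h2 with h2 | h2
      · exact hDr.ne' h2
      · have h3 : ((SpecialLinearGroup.map (algebraMap ℚ ℝ) r : (Matrix.SpecialLinearGroup ι ℝ)) : Matrix ι ι ℝ) *ᵥ
            ((((SpecialLinearGroup.map (algebraMap ℚ ℝ) r)⁻¹ : (Matrix.SpecialLinearGroup ι ℝ)) : Matrix ι ι ℝ) *ᵥ (fun i => (u i : ℝ))) = 0 := by
          rw [h2, mulVec_zero]
        rw [mulVec_mulVec, ← coe_mul, mul_inv_cancel, coe_one, one_mulVec] at h3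
        apply hu
        funext i
        have := congrFun h3 i
        simpa using this
    · rw [hval, norm_smul, Real.norm_of_nonneg hDr.le]
      have h2 := norm_mulVec_le hB0 hB ((h : Matrix ι ι ℝ) *ᵥ (fun i => (u i : ℝ)))
      have h3 : (Fintype.card ι * B) * ‖(h : Matrix ι ι ℝ) *ᵥ (fun i => (u i : ℝ))‖ < (Fintype.card ι * B + 1) * ε := by
        calc (Fintype.card ι * B) * ‖(h : Matrix ι ι ℝ) *ᵥ (fun i => (u i : ℝ))‖ ≤ (Fintype.card ι * B) * ε := by gcongr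
          _ < _ := by linarith
      calc (D : ℝ) * ‖(k : Matrix ι ι ℝ) *ᵥ ((h : Matrix ι ι ℝ) *ᵥ (fun i => (u i : ℝ)))‖
          < D * ((Fintype.card ι * B + 1) * ε) := by
            have := h2.trans_lt h3
            gcongr
        _ ≤ _ := by
            have : 0 ≤ (D' : ℝ) * (Fintype.card ι * B' + 1) * ε := by positivity
            linarith
  · right
    have hvec : (fun i => ((u ᵥ* Z') i : ℝ)) = (D' : ℝ) • ((fun i => (u i : ℝ)) ᵥ* ((SpecialLinearGroup.map (algebraMap ℚ ℝ) r : (Matrix.SpecialLinearGroup ι ℝ)) : Matrix ι ι ℝ)) := by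
      funext i
      change ((∑ j, u j * Z' j i : ℤ) : ℝ) = D' * ∑ j, (u j : ℝ) * (((r : Matrix ι ι ℚ) j i : ℚ) : ℝ)
      rw [Finset.mul_sum]
      push_cast
      refine Finset.sum_congr rfl fun j _ => ?_
      have := congrArg (fun x : ℚ => (x : ℝ)) (hZ' j i)
      simp only [Rat.cast_intCast, Rat.cast_mul, Rat.cast_natCast] at this
      rw [this]
      ring
    have hval : (fun i => ((u ᵥ* Z') i : ℝ)) ᵥ* (((k * h * SpecialLinearGroup.map (algebraMap ℚ ℝ) r)⁻¹ : (Matrix.SpecialLinearGroup ι ℝ)) : Matrix ι ι ℝ) =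
        (D' : ℝ) • (((fun i => (u i : ℝ)) ᵥ* ((h⁻¹ : (Matrix.SpecialLinearGroup ι ℝ)) : Matrix ι ι ℝ)) ᵥ* ((k⁻¹ : (Matrix.SpecialLinearGroup ι ℝ)) : Matrix ι ι ℝ)) := by
      rw [hvec, smul_vecMul, vecMul_vecMul, ← coe_mul, _root_.mul_inv_rev, mul_inv_cancel_left, _root_.mul_inv_rev, coe_mul,
        ← vecMul_vecMul]
    refine ⟨u ᵥ* Z', ?_, ?_⟩
    · intro h0
      rw [h0] at hvec
      have h2 : (D' : ℝ) • ((fun i => (u i : ℝ)) ᵥ* ((SpecialLinearGroup.map (algebraMap ℚ ℝ) r : (Matrix.SpecialLinearGroup ι ℝ)) : Matrix ι ι ℝ)) = 0 := by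
        rw [← hvec]
        funext i
        simp
      rw [smul_eq_zero] at h2
      rcases h2 with h2 | h2
      · exact hDr'.ne' h2
      · have h3 : ((fun i => (u i : ℝ)) ᵥ* ((SpecialLinearGroup.map (algebraMap ℚ ℝ) r : (Matrix.SpecialLinearGroup ι ℝ)) : Matrix ι ι ℝ)) ᵥ*
            (((SpecialLinearGroup.map (algebraMap ℚ ℝ) r)⁻¹ : (Matrix.SpecialLinearGroup ι ℝ)) : Matrix ι ι ℝ) = 0 := by
          rw [h2, zero_vecMul]
        rw [vecMul_vecMul, ← coe_mul, mul_inv_cancel, coe_one, vecMul_one] at h3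
        apply hu
        funext i
        have := congrFun h3 i
        simpa using this
    · rw [hval, norm_smul, Real.norm_of_nonneg hDr'.le]
      have h2 := norm_vecMul_le hB0' hB' ((fun i => (u i : ℝ)) ᵥ* ((h⁻¹ : (Matrix.SpecialLinearGroup ι ℝ)) : Matrix ι ι ℝ))
      have h3 : (Fintype.card ι * B') * ‖(fun i => (u i : ℝ)) ᵥ* ((h⁻¹ : (Matrix.SpecialLinearGroup ι ℝ)) : Matrix ι ι ℝ)‖ < (Fintype.card ι * B' + 1) * ε := by
        calc (Fintype.card ι * B') * ‖(fun i => (u i : ℝ)) ᵥ* ((h⁻¹ : (Matrix.SpecialLinearGroup ι ℝ)) : Matrix ι ι ℝ)‖ ≤ (Fintype.card ι * B') * ε := by gcongr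
          _ < _ := by linarith
      calc (D' : ℝ) * ‖((fun i => (u i : ℝ)) ᵥ* ((h⁻¹ : (Matrix.SpecialLinearGroup ι ℝ)) : Matrix ι ι ℝ)) ᵥ* ((k⁻¹ : (Matrix.SpecialLinearGroup ι ℝ)) : Matrix ι ι ℝ)‖
          < D' * ((Fintype.card ι * B' + 1) * ε) := by
            have := h2.trans_lt h3
            gcongr
        _ ≤ _ := by
            have : 0 ≤ (D : ℝ) * (Fintype.card ι * B + 1) * ε := by positivity
            linarith

/-- the rational points are dense -/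
theorem dense_rat [Nontrivial ι] : Dense {g : (Matrix.SpecialLinearGroup ι ℝ) | IsRat g} := by
  let R : Subgroup (Matrix.SpecialLinearGroup ι ℝ) := (SpecialLinearGroup.map (n := ι) (algebraMap ℚ ℝ)).range
  have hR : ∀ g : (Matrix.SpecialLinearGroup ι ℝ), IsRat g ↔ g ∈ R := by
    intro g
    constructor
    · rintro ⟨q, rfl⟩
      exact ⟨q, rfl⟩
    · rintro ⟨q, rfl⟩
      exact ⟨q, rfl⟩
  have htv : ∀ (i j : ι) (hij : i ≠ j) (t : ℝ), SpecialLinearGroup.transvection hij t ∈ R.topologicalClosure := by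
    intro i j hij t
    have hcont : Continuous (fun t : ℝ => (SpecialLinearGroup.transvection hij t : (Matrix.SpecialLinearGroup ι ℝ))) := by
      refine Continuous.subtype_mk ?_ _
      change Continuous fun t : ℝ => (1 : Matrix ι ι ℝ) + single i j t
      refine continuous_const.add ?_
      refine continuous_pi fun a => continuous_pi fun b => ?_
      simp only [single_apply]
      split_ifs
      · exact continuous_id
      · exact continuous_const
    have hmem : t ∈ closure (Set.range ((↑) : ℚ → ℝ)) := by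
      rw [Rat.denseRange_cast.closure_range]
      trivial
    have h1 := image_closure_subset_closure_image hcont (Set.mem_image_of_mem _ hmem)
    refine closure_mono ?_ h1
    rintro _ ⟨_, ⟨q, rfl⟩, rfl⟩
    refine ⟨SpecialLinearGroup.transvection hij q, ?_⟩
    apply Subtype.ext
    ext a b
    simp only [transvection_coe, Matrix.add_apply, single_apply, Matrix.one_apply,
      map_apply_coe, RingHom.mapMatrix_apply, Matrix.map_apply, eq_ratCast]
    split_ifs <;> simp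
  intro g
  have key : g ∈ R.topologicalClosure := by
    refine diagonal_transvection_induction' (fun g => g ∈ R.topologicalClosure) g ?_ htv ?_
    · intro i j hij a ha
      rw [diag2n_eq hij ha]
      exact mul_mem (mul_mem (mul_mem (htv _ _ _ _) (htv _ _ _ _)) (htv _ _ _ _))
        (mul_mem (mul_mem (htv _ _ _ _) (htv _ _ _ _)) (htv _ _ _ _))
    · intro A B hA hB
      exact mul_mem hA hB
  refine closure_mono ?_ key
  intro x hx
  exact (hR x).2 hx

end Pool.Agent.E8helper98.WD
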