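import Mathlib

set_option autoImplicit false
set_option linter.unusedSectionVars false

/-!
# The group generated by the allowed transvections; contraction on an orbit
-/

namespace Pool.Agent.E8helper98.WD

open Filter Topology Matrix Matrix.SpecialLinearGroup

variable {ι : Type*} [Fintype ι] [DecidableEq ι]

/-- allowed index pairs: inside `I`, different from `(p, m)` and `(m, p)` -/
structure Al (I : Set ι) (p m : ι) where
  i : ι
  j : ι
  ne : i ≠ j
  hi : i ∈ I
  hj : j ∈ I
  h1 : ¬ (i = p ∧ j = m)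
  h2 : ¬ (i = m ∧ j = p)

variable {I : Set ι} {p m : ι}

/-- the allowed transvection -/
def T (e : Al I p m) (t : ℝ) : SpecialLinearGroup ι ℝ := transvection e.ne t

/-- the group generated by the allowed transvections -/
def H (I : Set ι) (p m : ι) : Subgroup (SpecialLinearGroup ι ℝ) :=
  Subgroup.closure (Set.range fun q : Al I p m × ℝ => T q.1 q.2)

theorem T_mem (e : Al I p m) (t : ℝ) : T e t ∈ H I p m :=
  Subgroup.subset_closure ⟨(e, t), rfl⟩

theorem T_zero (e : Al I p m) : T e 0 = 1 := transvection_coeff_zero e.ne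

theorem T_inv (e : Al I p m) (t : ℝ) : (T e t)⁻¹ = T e (-t) := transvection_inv e.ne t

theorem ring_comm {R : Type*} [Ring R] {x y : R} (hxx : x * x = 0) (hyy : y * y = 0)
    (hyx : y * x = 0) : (1 + x) * (1 + y) * (1 - x) * (1 - y) = 1 + x * y := by
  have h1 : x * y * x = 0 := by rw [mul_assoc, hyx, mul_zero]
  have h2 : x * y * y = 0 := by rw [mul_assoc, hyy, mul_zero]
  have e1 : (1 + x) * (1 + y) = 1 + x + y + x * y := by noncomm_ring
  have e2 : (1 + x + y + x * y) * (1 - x) = 1 + y + x * y - x * x - y * x - x * y * x := by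
    noncomm_ring
  have e3 : (1 + y + x * y) * (1 - y) = 1 + x * y - y * y - x * y * y := by noncomm_ring
  rw [e1, e2, hxx, hyx, h1, sub_zero, sub_zero, sub_zero, e3, hyy, h2, sub_zero, sub_zero]

/-- commutator of two elementary matrices -/
theorem trans_comm {i j c : ι} (hij : i ≠ j) (hic : i ≠ c) (hcj : c ≠ j) (t : ℝ) :
    (SpecialLinearGroup.transvection hij t : SpecialLinearGroup ι ℝ) =
      SpecialLinearGroup.transvection hic t * SpecialLinearGroup.transvection hcj 1 * SpecialLinearGroup.transvection hic (-t) * SpecialLinearGroup.transvection hcj (-1) := by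
  apply Subtype.ext
  simp only [coe_mul, transvection_coe]
  have e1 : (single i c t : Matrix ι ι ℝ) * single c j 1 = single i j t := by
    rw [single_mul_single_same, mul_one]
  have e2 : (single c j (1 : ℝ) : Matrix ι ι ℝ) * single i c t = 0 :=
    single_mul_single_of_ne _ _ _ _ hij.symm _
  have e3 : (single i c t : Matrix ι ι ℝ) * single i c t = 0 :=
    single_mul_single_of_ne _ _ _ _ hic.symm _
  have e4 : (single c j (1 : ℝ) : Matrix ι ι ℝ) * single c j 1 = 0 :=
    single_mul_single_of_ne _ _ _ _ hcj.symm _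
  have e9 : (1 : Matrix ι ι ℝ) + single i c (-t) = 1 - single i c t := by
    rw [sub_eq_add_neg, single_neg]
  have e10 : (1 : Matrix ι ι ℝ) + single c j (-1 : ℝ) = 1 - single c j 1 := by
    rw [sub_eq_add_neg, single_neg]
  rw [e9, e10, ring_comm e3 e4 e2, e1]

theorem ring_weyl {R : Type*} [Ring R] {x y : R} (hxx : x * x = 0)
    (hxyx : x * y * x = - x) : (1 + x) * (1 + y) * (1 + x) = 1 + x + y + x * y + y * x := by
  have e1 : (1 + x) * (1 + y) * (1 + x) = 1 + x + y + x * y + x + x * x + y * x + x * y * x := by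
    noncomm_ring
  rw [e1, hxx, hxyx]
  abel

/-- the Weyl element -/
theorem weyl_eq {i j : ι} (hij : i ≠ j) {a : ℝ} (ha : a ≠ 0) :
    ((SpecialLinearGroup.transvection hij a * SpecialLinearGroup.transvection hij.symm (-a⁻¹) * SpecialLinearGroup.transvection hij a :
      SpecialLinearGroup ι ℝ) : Matrix ι ι ℝ) =
      1 + a • single i j 1 - a⁻¹ • single j i 1 - single i i 1 - single j j 1 := by
  simp only [coe_mul, transvection_coe]
  have e1 : (single i j a : Matrix ι ι ℝ) * single j i (-a⁻¹) = - single i i 1 := by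
    rw [single_mul_single_same, single_neg]
    congr 1
    field_simp
  have e2 : (single i j a : Matrix ι ι ℝ) * single i j a = 0 :=
    single_mul_single_of_ne _ _ _ _ hij.symm _
  have e3 : (single j i (-a⁻¹) : Matrix ι ι ℝ) * single i j a = - single j j 1 := by
    rw [single_mul_single_same, single_neg]
    congr 1
    field_simp
  have e4 : (single i j a : Matrix ι ι ℝ) * single j i (-a⁻¹) * single i j a = - single i j a := by
    rw [e1, neg_mul, single_mul_single_same, one_mul]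
  rw [ring_weyl e2 e4, e1, e3]
  have e5 : (single j i (-a⁻¹) : Matrix ι ι ℝ) = - (a⁻¹ • single j i 1) := by
    rw [← single_neg, smul_single]; simp
  have e6 : (single i j a : Matrix ι ι ℝ) = a • single i j 1 := by
    rw [smul_single]; simp
  rw [e5, e6]
  abel

theorem diag2n_eq {i j : ι} (hij : i ≠ j) {a : ℝ} (ha : a ≠ 0) :
    (diag2n hij a ha : SpecialLinearGroup ι ℝ) =
      (SpecialLinearGroup.transvection hij a * SpecialLinearGroup.transvection hij.symm (-a⁻¹) * SpecialLinearGroup.transvection hij a) *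
      (SpecialLinearGroup.transvection hij (-1) * SpecialLinearGroup.transvection hij.symm (-(-1)⁻¹) * SpecialLinearGroup.transvection hij (-1)) := by
  apply Subtype.ext
  rw [coe_mul, weyl_eq hij ha, weyl_eq hij (by norm_num : (-1 : ℝ) ≠ 0), diag2n_coe]
  have s1 : (single i j (1 : ℝ) : Matrix ι ι ℝ) * single i j 1 = 0 :=
    single_mul_single_of_ne _ _ _ _ hij.symm _
  have s2 : (single i j (1 : ℝ) : Matrix ι ι ℝ) * single j i 1 = single i i 1 := by
    rw [single_mul_single_same, one_mul]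
  have s3 : (single i j (1 : ℝ) : Matrix ι ι ℝ) * single i i 1 = 0 :=
    single_mul_single_of_ne _ _ _ _ hij.symm _
  have s4 : (single i j (1 : ℝ) : Matrix ι ι ℝ) * single j j 1 = single i j 1 := by
    rw [single_mul_single_same, one_mul]
  have t1 : (single j i (1 : ℝ) : Matrix ι ι ℝ) * single i j 1 = single j j 1 := by
    rw [single_mul_single_same, one_mul]
  have t2 : (single j i (1 : ℝ) : Matrix ι ι ℝ) * single j i 1 = 0 :=
    single_mul_single_of_ne _ _ _ _ hij _
  have t3 : (single j i (1 : ℝ) : Matrix ι ι ℝ) * single i i 1 = single j i 1 := by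
    rw [single_mul_single_same, one_mul]
  have t4 : (single j i (1 : ℝ) : Matrix ι ι ℝ) * single j j 1 = 0 :=
    single_mul_single_of_ne _ _ _ _ hij _
  have u1 : (single i i (1 : ℝ) : Matrix ι ι ℝ) * single i j 1 = single i j 1 := by
    rw [single_mul_single_same, one_mul]
  have u2 : (single i i (1 : ℝ) : Matrix ι ι ℝ) * single j i 1 = 0 :=
    single_mul_single_of_ne _ _ _ _ hij _
  have u3 : (single i i (1 : ℝ) : Matrix ι ι ℝ) * single i i 1 = single i i 1 := by
    rw [single_mul_single_same, one_mul]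
  have u4 : (single i i (1 : ℝ) : Matrix ι ι ℝ) * single j j 1 = 0 :=
    single_mul_single_of_ne _ _ _ _ hij _
  have v1 : (single j j (1 : ℝ) : Matrix ι ι ℝ) * single i j 1 = 0 :=
    single_mul_single_of_ne _ _ _ _ hij.symm _
  have v2 : (single j j (1 : ℝ) : Matrix ι ι ℝ) * single j i 1 = single j i 1 := by
    rw [single_mul_single_same, one_mul]
  have v3 : (single j j (1 : ℝ) : Matrix ι ι ℝ) * single i i 1 = 0 :=
    single_mul_single_of_ne _ _ _ _ hij.symm _
  have v4 : (single j j (1 : ℝ) : Matrix ι ι ℝ) * single j j 1 = single j j 1 := by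
    rw [single_mul_single_same, one_mul]
  have hd : (diagonal (fun k ↦ if k = i then a else if k = j then a⁻¹ else 1) : Matrix ι ι ℝ) =
      1 - single i i 1 - single j j 1 + a • single i i 1 + a⁻¹ • single j j 1 := by
    ext k l
    simp only [diagonal_apply, Matrix.add_apply, Matrix.sub_apply, Matrix.smul_apply, single_apply,
      Matrix.one_apply, smul_eq_mul]
    by_cases hkl : k = l
    · subst hkl
      by_cases hki : k = i
      · subst hki
        simp [hij.symm]
      · by_cases hkj : k = j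
        · subst hkj
          simp [hij, hki]
        · simp [hki, hkj, Ne.symm hki, Ne.symm hkj]
    · have h1 : ¬ (i = k ∧ i = l) := fun h => hkl (h.1.symm.trans h.2)
      have h2 : ¬ (j = k ∧ j = l) := fun h => hkl (h.1.symm.trans h.2)
      simp [hkl, h1, h2]
  rw [hd]
  symm
  have hinv : ((-1 : ℝ))⁻¹ = -1 := by norm_num
  rw [hinv]
  simp only [mul_add, mul_sub, add_mul, sub_mul, mul_one, one_mul, smul_mul_assoc, mul_smul_comm,
    s1, s2, s3, s4, t1, t2, t3, t4, u1, u2, u3, u4, v1, v2, v3, v4, smul_zero]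
  module

/-- all transvections inside `I` are in `H` -/
theorem trans_mem {c : ι} (hpm : p ≠ m) (hp : p ∈ I) (hm : m ∈ I) (hc : c ∈ I) (hcp : c ≠ p)
    (hcm : c ≠ m) {i j : ι} (hij : i ≠ j) (hi : i ∈ I) (hj : j ∈ I) (t : ℝ) :
    SpecialLinearGroup.transvection hij t ∈ H I p m := by
  by_cases h1 : i = p ∧ j = m
  · obtain ⟨rfl, rfl⟩ := h1
    rw [trans_comm hij (Ne.symm hcp) hcm]
    have a1 : ∀ s, SpecialLinearGroup.transvection (Ne.symm hcp) s ∈ H I i j := fun s =>
      T_mem ⟨i, c, Ne.symm hcp, hp, hc, fun h => hcm h.2, fun h => hcp h.2⟩ s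
    have a2 : ∀ s, SpecialLinearGroup.transvection hcm s ∈ H I i j := fun s =>
      T_mem ⟨c, j, hcm, hc, hm, fun h => hcp h.1, fun h => hcm h.1⟩ s
    exact mul_mem (mul_mem (mul_mem (a1 _) (a2 _)) (a1 _)) (a2 _)
  · by_cases h2 : i = m ∧ j = p
    · obtain ⟨rfl, rfl⟩ := h2
      rw [trans_comm hij (Ne.symm hcm) hcp]
      have a1 : ∀ s, SpecialLinearGroup.transvection (Ne.symm hcm) s ∈ H I j i := fun s =>
        T_mem ⟨i, c, Ne.symm hcm, hm, hc, fun h => hcm h.2, fun h => hcp h.2⟩ s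
      have a2 : ∀ s, SpecialLinearGroup.transvection hcp s ∈ H I j i := fun s =>
        T_mem ⟨c, j, hcp, hc, hp, fun h => hcp h.1, fun h => hcm h.1⟩ s
      exact mul_mem (mul_mem (mul_mem (a1 _) (a2 _)) (a1 _)) (a2 _)
    · exact T_mem ⟨i, j, hij, hi, hj, h1, h2⟩ t

/-- there is a third index -/
theorem third {c : ι} (hpm : p ≠ m) (hp : p ∈ I) (hm : m ∈ I) (hc : c ∈ I) (hcp : c ≠ p)
    (hcm : c ≠ m) {i j : ι} : ∃ d ∈ I, d ≠ i ∧ d ≠ j := by
  by_cases h1 : p ≠ i ∧ p ≠ j
  · exact ⟨p, hp, h1.1, h1.2⟩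
  · by_cases h2 : m ≠ i ∧ m ≠ j
    · exact ⟨m, hm, h2.1, h2.2⟩
    · refine ⟨c, hc, ?_, ?_⟩ <;> intro h <;> subst h <;> grind

theorem diag2n_mem {c : ι} (hpm : p ≠ m) (hp : p ∈ I) (hm : m ∈ I) (hc : c ∈ I) (hcp : c ≠ p)
    (hcm : c ≠ m) {i j : ι} (hij : i ≠ j) (hi : i ∈ I) (hj : j ∈ I) {a : ℝ} (ha : a ≠ 0) :
    (diag2n hij a ha : SpecialLinearGroup ι ℝ) ∈ H I p m := by
  rw [diag2n_eq hij ha]
  have a1 : ∀ s, SpecialLinearGroup.transvection hij s ∈ H I p m := trans_mem hpm hp hm hc hcp hcm hij hi hj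
  have a2 : ∀ s, SpecialLinearGroup.transvection hij.symm s ∈ H I p m := trans_mem hpm hp hm hc hcp hcm hij.symm hj hi
  exact mul_mem (mul_mem (mul_mem (a1 _) (a2 _)) (a1 _)) (mul_mem (mul_mem (a1 _) (a2 _)) (a1 _))

/-- the diagonal matrix with entries `exp (x i)` -/
noncomputable def dexp (x : ι → ℝ) (hx : ∑ i, x i = 0) : SpecialLinearGroup ι ℝ :=
  ⟨diagonal (fun i => Real.exp (x i)), by rw [det_diagonal, ← Real.exp_sum, hx, Real.exp_zero]⟩

theorem dexp_mem {c : ι} (hpm : p ≠ m) (hp : p ∈ I) (hm : m ∈ I) (hc : c ∈ I) (hcp : c ≠ p)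
    (hcm : c ≠ m) (x : ι → ℝ) (hx : ∑ i, x i = 0) (hI : ∀ i, i ∉ I → x i = 0) :
    dexp x hx ∈ H I p m := by
  have hdet : det (diagonal (fun i => Real.exp (x i))) = 1 := (dexp x hx).2
  have : dexp x hx = ⟨diagonal (fun i => Real.exp (x i)), hdet⟩ := rfl
  rw [this, diag_eq_diag2n_prod p _ hdet]
  refine Subgroup.noncommProd_mem _ _ fun i _ => ?_
  by_cases hi : i ≠ p
  · rw [dif_pos hi]
    by_cases hiI : i ∈ I
    · exact diag2n_mem hpm hp hm hc hcp hcm hi hiI hp _
    · have h0 : x i = 0 := hI i hiI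
      have : (diag2n hi (Real.exp (x i)) (diagonal_neZero _ hdet i) : SpecialLinearGroup ι ℝ) = 1 := by
        apply Subtype.ext
        rw [diag2n_coe]
        simp [h0]
      rw [this]
      exact one_mem _
  · rw [dif_neg hi]
    exact one_mem _

/-- a homomorphism to a commutative monoid is trivial on `H` -/
theorem hom_trivial {c : ι} (hpm : p ≠ m) (hp : p ∈ I) (hm : m ∈ I) (hc : c ∈ I) (hcp : c ≠ p)
    (hcm : c ≠ m) (F : H I p m →* ℝ) (h : H I p m) : F h = 1 := by
  have key : ∀ (g : SpecialLinearGroup ι ℝ) (hg : g ∈ H I p m), F ⟨g, hg⟩ = 1 := by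
    intro g hg
    induction hg using Subgroup.closure_induction with
    | mem x hx =>
      obtain ⟨⟨e, t⟩, rfl⟩ := hx
      obtain ⟨d, hd, hdi, hdj⟩ := third hpm hp hm hc hcp hcm (i := e.i) (j := e.j)
      have a1 : ∀ s, SpecialLinearGroup.transvection (Ne.symm hdi) s ∈ H I p m :=
        trans_mem hpm hp hm hc hcp hcm _ e.hi hd
      have a2 : ∀ s, SpecialLinearGroup.transvection hdj s ∈ H I p m := trans_mem hpm hp hm hc hcp hcm _ hd e.hj
      have e1 : (⟨T e t, Subgroup.subset_closure ⟨(e, t), rfl⟩⟩ : H I p m) =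
          ⟨_, a1 t⟩ * ⟨_, a2 1⟩ * (⟨_, a1 t⟩)⁻¹ * (⟨_, a2 1⟩)⁻¹ := by
        apply Subtype.ext
        simp only [Subgroup.coe_mul, Subgroup.coe_inv, transvection_inv]
        exact trans_comm e.ne (Ne.symm hdi) hdj t
      rw [e1, map_mul, map_mul, map_mul]
      have h1 : F ⟨_, a1 t⟩ * F (⟨_, a1 t⟩)⁻¹ = 1 := by rw [← map_mul, mul_inv_cancel, map_one]
      have h2 : F ⟨_, a2 1⟩ * F (⟨_, a2 1⟩)⁻¹ = 1 := by rw [← map_mul, mul_inv_cancel, map_one]
      linear_combination h1 * (F ⟨_, a2 1⟩ * F (⟨_, a2 1⟩)⁻¹) + h2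
    | one => exact F.map_one
    | mul x y hx hy ihx ihy =>
      have : (⟨x * y, mul_mem hx hy⟩ : H I p m) = ⟨x, hx⟩ * ⟨y, hy⟩ := rfl
      rw [this, map_mul, ihx, ihy, mul_one]
    | inv x hx ih =>
      have h1 : F ⟨x⁻¹, inv_mem hx⟩ * F ⟨x, hx⟩ = 1 := by
        rw [← map_mul]
        have : (⟨x⁻¹, inv_mem hx⟩ * ⟨x, hx⟩ : H I p m) = 1 := by
          apply Subtype.ext
          simp
        rw [this, map_one]
      rw [ih, mul_one] at h1
      exact h1
  exact key h.1 h.2

end Pool.Agent.E8helper98.WD
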