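import Pool.Agent.E8helper98.WD.Base

set_option autoImplicit false
set_option linter.unusedSectionVars false

/-!
# Linear algebra: coordinates cutting a subspace down to a line
-/

namespace Pool.Agent.E8helper98.WD

open Filter Topology Matrix Matrix.SpecialLinearGroup Module

variable {ι : Type*} [Fintype ι] [DecidableEq ι]

/-- coordinates cutting a subspace of dimension `k + 1` down to a line -/
theorem cut (k : ℕ) : ∀ 𝔡 : Submodule ℝ (ι → ℝ), finrank ℝ 𝔡 = k + 1 →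
    ∃ J : Finset ι, J.card ≤ k ∧ ∃ μ ∈ 𝔡, μ ≠ 0 ∧ (∀ j ∈ J, μ j = 0) ∧
      ∀ x ∈ 𝔡, (∀ j ∈ J, x j = 0) → ∃ a : ℝ, x = a • μ := by
  induction k with
  | zero =>
    intro 𝔡 h
    obtain ⟨v, hv, hv2⟩ := finrank_eq_one_iff'.1 h
    refine ⟨∅, le_rfl, v, v.2, ?_, by simp, ?_⟩
    · intro h0
      exact hv (Subtype.ext h0)
    · intro x hx _
      obtain ⟨a, ha⟩ := hv2 ⟨x, hx⟩
      exact ⟨a, by rw [← Submodule.coe_smul, ha]⟩
  | succ k ih =>
    intro 𝔡 h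
    have hne : ∃ x ∈ 𝔡, x ≠ 0 := by
      by_contra hcon
      push Not at hcon
      have : 𝔡 = ⊥ := by
        rw [Submodule.eq_bot_iff]
        exact hcon
      rw [this, finrank_bot] at h
      omega
    obtain ⟨x, hx, hx0⟩ := hne
    obtain ⟨i, hi⟩ : ∃ i, x i ≠ 0 := by
      by_contra hcon
      push Not at hcon
      exact hx0 (funext hcon)
    set f : 𝔡 →ₗ[ℝ] ℝ := (LinearMap.proj i).domRestrict 𝔡 with hf
    have hfs : Function.Surjective f := by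
      intro r
      refine ⟨(r / x i) • ⟨x, hx⟩, ?_⟩
      rw [map_smul]
      change (r / x i) * x i = r
      field_simp
    have hrank : finrank ℝ (LinearMap.ker f) = k + 1 := by
      have h1 := LinearMap.finrank_range_add_finrank_ker f
      rw [LinearMap.range_eq_top.2 hfs, finrank_top, Module.finrank_self, h] at h1
      omega
    have hrank2 : finrank ℝ ((LinearMap.ker f).map 𝔡.subtype) = k + 1 := by
      rw [← hrank]
      exact LinearEquiv.finrank_eq (Submodule.equivMapOfInjective _ 𝔡.injective_subtype _).symm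
    obtain ⟨J, hJ, μ, hμ, hμ0, hμJ, hsp⟩ := ih _ hrank2
    have hmem : ∀ y, y ∈ (LinearMap.ker f).map 𝔡.subtype ↔ y ∈ 𝔡 ∧ y i = 0 := by
      intro y
      constructor
      · rintro ⟨z, hz, rfl⟩
        exact ⟨z.2, hz⟩
      · rintro ⟨h1, h2⟩
        exact ⟨⟨y, h1⟩, h2, rfl⟩
    refine ⟨insert i J, (Finset.card_insert_le _ _).trans (by omega), μ, ((hmem μ).1 hμ).1, hμ0, ?_, ?_⟩
    · intro j hj
      rcases Finset.mem_insert.1 hj with rfl | hj
      · exact ((hmem μ).1 hμ).2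
      · exact hμJ j hj
    · intro y hy hyJ
      exact hsp y ((hmem y).2 ⟨hy, hyJ i (Finset.mem_insert_self _ _)⟩)
        fun j hj => hyJ j (Finset.mem_insert_of_mem hj)

/-- positive and negative coordinates -/
theorem pos_neg {μ : ι → ℝ} (hμ : ∑ i, μ i = 0) (h0 : μ ≠ 0) : (∃ p, 0 < μ p) ∧ ∃ m, μ m < 0 := by
  constructor
  · by_contra hcon
    push Not at hcon
    apply h0
    funext i
    exact (Finset.sum_eq_zero_iff_of_nonpos fun i _ => hcon i).1 hμ i (Finset.mem_univ i)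
  · by_contra hcon
    push Not at hcon
    apply h0
    funext i
    exact (Finset.sum_eq_zero_iff_of_nonneg fun i _ => hcon i).1 hμ i (Finset.mem_univ i)

/-- bounded decomposition along the line -/
theorem decomp (𝔡 : Submodule ℝ (ι → ℝ)) (J : Finset ι) (μ : ι → ℝ)
    (hsp : ∀ x ∈ 𝔡, (∀ j ∈ J, x j = 0) → ∃ a : ℝ, x = a • μ) :
    ∃ C : ℝ, 0 < C ∧ ∀ x ∈ 𝔡, ∀ R : ℝ, 0 ≤ R → (∀ j ∈ J, |x j| ≤ R) →
      ∃ (a : ℝ) (w : ι → ℝ), w ∈ 𝔡 ∧ x = a • μ + w ∧ ‖w‖ ≤ C * R := by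
  set r0 : (ι → ℝ) →ₗ[ℝ] (J → ℝ) := LinearMap.pi fun j => LinearMap.proj (j : ι) with hr0
  set r : 𝔡 →ₗ[ℝ] (J → ℝ) := r0.domRestrict 𝔡 with hr
  set rc : 𝔡 →L[ℝ] LinearMap.range r := LinearMap.toContinuousLinearMap r.rangeRestrict with hrc
  have hsurj : Function.Surjective rc := LinearMap.surjective_rangeRestrict r
  obtain ⟨C, hC, hC2⟩ := ContinuousLinearMap.exists_preimage_norm_le rc hsurj
  refine ⟨C, hC, fun x hx R hR hxJ => ?_⟩
  obtain ⟨w, hw1, hw2⟩ := hC2 (rc ⟨x, hx⟩)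
  have hker : ∀ j ∈ J, (x - (w : ι → ℝ)) j = 0 := by
    intro j hj
    have h1 : r w = r ⟨x, hx⟩ := congrArg Subtype.val hw1
    have h2 := congrFun h1 ⟨j, hj⟩
    change (w : ι → ℝ) j = x j at h2
    rw [Pi.sub_apply, h2, sub_self]
  obtain ⟨a, ha⟩ := hsp (x - w) (sub_mem hx w.2) hker
  refine ⟨a, w, w.2, ?_, ?_⟩
  · rw [← ha]
    abel
  · have h3 : ‖rc ⟨x, hx⟩‖ ≤ R := by
      change ‖r ⟨x, hx⟩‖ ≤ R
      refine (pi_norm_le_iff_of_nonneg hR).2 fun j => ?_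
      exact hxJ j j.2
    calc ‖(w : ι → ℝ)‖ = ‖w‖ := rfl
      _ ≤ C * ‖rc ⟨x, hx⟩‖ := hw2
      _ ≤ C * R := by gcongr

end Pool.Agent.E8helper98.WD
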