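import Pool.Agent.E8helper98.WD.Build

set_option autoImplicit false
set_option linter.unusedSectionVars false

/-!
# The nested construction, states
-/

namespace Pool.Agent.E8helper98.WD

open Filter Topology Matrix Matrix.SpecialLinearGroup

variable {ι : Type*} [Fintype ι] [DecidableEq ι]

variable {I : Set ι} {p m : ι}

/-- a state of the construction -/
structure St (μ : ι → ℝ) (I : Set ι) (p m : ι) where
  g : (Matrix.SpecialLinearGroup ι ℝ)
  A : ℝ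
  ε : ℝ
  K : Set (Matrix.SpecialLinearGroup ι ℝ)
  hK : IsCompact K
  hg : K ∈ 𝓝 g
  hH : g ∈ H I p m
  hr : IsRat g
  hε : 0 < ε
  hz : Z μ p m g A ε

/-- `s'` refines `s` -/
def Le {μ : ι → ℝ} (s s' : St μ I p m) : Prop :=
  s'.K ⊆ s.K ∧ s.A ≤ s'.A ∧ s'.ε ≤ s.ε ∧
    ∀ h ∈ s'.K, ∀ a, s.A ≤ a → a < s'.A → h ∈ Con μ s.ε a ∧ h ∈ Con μ s.ε (-a)

theorem Le.refl {μ : ι → ℝ} (s : St μ I p m) : Le s s :=
  ⟨subset_rfl, le_rfl, le_rfl, fun _ _ _ h1 h2 => absurd h1 (not_le.2 h2)⟩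

theorem Le.trans {μ : ι → ℝ} {s s' s'' : St μ I p m} (h : Le s s') (h' : Le s' s'') : Le s s'' := by
  obtain ⟨h1, h2, h3, h4⟩ := h
  obtain ⟨k1, k2, k3, k4⟩ := h'
  refine ⟨k1.trans h1, h2.trans k2, k3.trans h3, fun g hg a ha hb => ?_⟩
  rcases lt_or_ge a s'.A with hlt | hge
  · exact h4 g (k1 hg) a ha hlt
  · obtain ⟨c1, c2⟩ := k4 g hg a hge hb
    exact ⟨Con_mono h3 c1, Con_mono h3 c2⟩

theorem isRat_T (e : Al I p m) (t : ℚ) : IsRat (T e (t : ℝ)) := by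
  refine ⟨SpecialLinearGroup.transvection e.ne t, ?_⟩
  apply Subtype.ext
  ext a b
  simp only [T, transvection_coe, Matrix.add_apply, single_apply, Matrix.one_apply,
    map_apply_coe, RingHom.mapMatrix_apply, Matrix.map_apply, eq_ratCast]
  split_ifs <;> simp

theorem IsRat.mul {g h : (Matrix.SpecialLinearGroup ι ℝ)} (hg : IsRat g) (hh : IsRat h) : IsRat (g * h) := by
  obtain ⟨a, rfl⟩ := hg
  obtain ⟨b, rfl⟩ := hh
  exact ⟨a * b, by rw [map_mul]⟩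

/-- one move -/
theorem step {μ : ι → ℝ} (hw : Wt μ p m) (s : St μ I p m) (e : Al I p m) (t : ℚ)
    (ht : s.K ∈ 𝓝 (T e (t : ℝ) * s.g)) {U : Set (Matrix.SpecialLinearGroup ι ℝ)} (hU : U ∈ 𝓝 (T e (t : ℝ) * s.g))
    {ε' : ℝ} (hε' : 0 < ε') (A0 : ℝ) :
    ∃ s' : St μ I p m, Le s s' ∧ s'.g = T e (t : ℝ) * s.g ∧ s'.K ⊆ U ∧ s'.ε ≤ ε' ∧ A0 ≤ s'.A := by
  set g' := T e (t : ℝ) * s.g with hg'
  have hr' : IsRat g' := (isRat_T e t).mul s.hr
  have hε1 : 0 < min s.ε ε' := lt_min s.hε hε'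
  obtain ⟨A', hA', hZ⟩ := exists_Z hw hr' hε1 (max s.A A0)
  have hV : {h : (Matrix.SpecialLinearGroup ι ℝ) | ∀ a ∈ Set.Icc s.A A', h ∈ Con μ s.ε a ∧ h ∈ Con μ s.ε (-a)} ∈ 𝓝 g' := by
    have hop : IsOpen {q : (Matrix.SpecialLinearGroup ι ℝ) × ℝ | q.1 ∈ Con μ s.ε q.2 ∧ q.1 ∈ Con μ s.ε (-q.2)} := by
      refine IsOpen.inter (isOpen_Con μ s.ε) ?_
      have hc : Continuous (fun q : (Matrix.SpecialLinearGroup ι ℝ) × ℝ => (q.1, -q.2)) := by fun_prop
      exact (isOpen_Con μ s.ε).preimage hc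
    refine (isCompact_Icc (a := s.A) (b := A')).eventually_forall_of_forall_eventually fun a ha => ?_
    have := move_con hw s.hz e t ha.1
    exact hop.mem_nhds (show ((g', a) : (Matrix.SpecialLinearGroup ι ℝ) × ℝ) ∈ {q : (Matrix.SpecialLinearGroup ι ℝ) × ℝ | q.1 ∈ Con μ s.ε q.2 ∧ q.1 ∈ Con μ s.ε (-q.2)} from this)
  obtain ⟨K', hK'1, hK'2, hK'3⟩ := local_compact_nhds (inter_mem (inter_mem ht hU) hV)
  refine ⟨⟨g', A', min s.ε ε', K', hK'3, hK'1, mul_mem (T_mem e _) s.hH, hr', hε1, hZ⟩, ?_, rfl, ?_, ?_, ?_⟩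
  · refine ⟨fun x hx => (hK'2 hx).1.1, (le_max_left _ _).trans hA', min_le_left _ _, ?_⟩
    intro h hh a ha hb
    exact (hK'2 hh).2 a ⟨ha, hb.le⟩
  · exact fun x hx => (hK'2 hx).1.2
  · exact min_le_right _ _
  · exact (le_max_right _ _).trans hA'

/-- words in the allowed moves -/
def Pr (I : Set ι) (p m : ι) : List (Al I p m) → Set (Matrix.SpecialLinearGroup ι ℝ)
  | [] => {1}
  | e :: w => {x | ∃ h ∈ Pr I p m w, ∃ s : ℝ, x = h * T e s}

theorem Pr_append {w₁ w₂ : List (Al I p m)} {x y : (Matrix.SpecialLinearGroup ι ℝ)} (hx : x ∈ Pr I p m w₁) (hy : y ∈ Pr I p m w₂) :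
    y * x ∈ Pr I p m (w₁ ++ w₂) := by
  induction w₁ generalizing x with
  | nil =>
    have : x = 1 := hx
    rw [this, mul_one]
    exact hy
  | cons e w ih =>
    obtain ⟨h, hh, s, rfl⟩ := hx
    refine ⟨y * h, ih hh, s, ?_⟩
    rw [mul_assoc]

theorem word {h : (Matrix.SpecialLinearGroup ι ℝ)} (hh : h ∈ H I p m) : ∃ w, h ∈ Pr I p m w := by
  induction hh using Subgroup.closure_induction with
  | mem x hx =>
    obtain ⟨⟨e, t⟩, rfl⟩ := hx
    exact ⟨[e], 1, rfl, t, by simp⟩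
  | one => exact ⟨[], rfl⟩
  | mul x y _ _ hx hy =>
    obtain ⟨w1, h1⟩ := hx
    obtain ⟨w2, h2⟩ := hy
    exact ⟨w2 ++ w1, Pr_append h2 h1⟩
  | inv x _ hx =>
    obtain ⟨w, hw⟩ := hx
    clear * - hw
    induction w generalizing x with
    | nil =>
      have : x = 1 := hw
      exact ⟨[], by rw [this, inv_one]; rfl⟩
    | cons e w ih =>
      obtain ⟨h, hh, s, rfl⟩ := hw
      obtain ⟨w', hw'⟩ := ih h hh
      refine ⟨w' ++ [e], ?_⟩
      rw [_root_.mul_inv_rev, T_inv]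
      refine Pr_append hw' ⟨1, rfl, -s, by simp⟩

/-- closed sets with the line property -/
structure Good (I : Set ι) (p m : ι) (O : Set (Matrix.SpecialLinearGroup ι ℝ)) : Prop where
  cl : IsClosed O
  line : ∀ (e : Al I p m) (X Y : (Matrix.SpecialLinearGroup ι ℝ)), {t : ℝ | X * T e t * Y ∈ O} = Set.univ ∨ {t : ℝ | X * T e t * Y ∈ O}.Finite

theorem continuous_T (e : Al I p m) : Continuous (fun t : ℝ => T e t) := by
  unfold T
  refine Continuous.subtype_mk ?_ _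
  change Continuous fun t : ℝ => (1 : Matrix ι ι ℝ) + single e.i e.j t
  refine continuous_const.add ?_
  refine continuous_pi fun a => continuous_pi fun b => ?_
  simp only [single_apply]
  split_ifs
  · exact continuous_id
  · exact continuous_const

/-- small rational parameters avoiding a finite set -/
theorem small_t {B : Set ℝ} (hB : B.Finite) {N : Set ℝ} (hN : N ∈ 𝓝 (0 : ℝ)) :
    ∃ t : ℚ, (t : ℝ) ∉ B ∧ (t : ℝ) ∈ N := by
  have h1 : Tendsto (fun k : ℕ => ((1 / ((k : ℚ) + 1) : ℚ) : ℝ)) atTop (𝓝 0) := by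
    have := tendsto_one_div_add_atTop_nhds_zero_nat (𝕜 := ℝ)
    refine this.congr fun k => ?_
    push_cast
    rfl
  have hinj : Function.Injective (fun k : ℕ => ((1 / ((k : ℚ) + 1) : ℚ) : ℝ)) := by
    intro a b hab
    have h1 : (1 / ((a : ℚ) + 1) : ℚ) = 1 / ((b : ℚ) + 1) := Rat.cast_injective (α := ℝ) hab
    rw [one_div, one_div, _root_.inv_inj] at h1
    have h2 : (a : ℚ) = b := by linarith
    exact_mod_cast h2
  have h2 : ∀ᶠ k : ℕ in atTop, ((1 / ((k : ℚ) + 1) : ℚ) : ℝ) ∉ B := by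
    have hf : {k : ℕ | ((1 / ((k : ℚ) + 1) : ℚ) : ℝ) ∈ B}.Finite := hB.preimage hinj.injOn
    have := hf.eventually_cofinite_notMem
    rw [Nat.cofinite_eq_atTop] at this
    exact this
  obtain ⟨k, hk1, hk2⟩ := (h2.and (h1.eventually_mem hN)).exists
  exact ⟨_, hk1, hk2⟩

/-- escaping from `O` -/
theorem escape {μ : ι → ℝ} (hw : Wt μ p m) {O : Set (Matrix.SpecialLinearGroup ι ℝ)} (hO : Good I p m O) (w : List (Al I p m)) :
    ∀ s : St μ I p m, (∃ h ∈ Pr I p m w, h * s.g ∉ O) → ∃ s', Le s s' ∧ s'.g ∉ O := by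
  induction w with
  | nil =>
    rintro s ⟨h, hh, hn⟩
    have : h = 1 := hh
    rw [this, one_mul] at hn
    exact ⟨s, Le.refl s, hn⟩
  | cons e w ih =>
    rintro s ⟨h, ⟨h', hh', r, rfl⟩, hn⟩
    have hfin : {t : ℝ | h' * T e t * s.g ∈ O}.Finite := by
      refine (hO.line e h' s.g).resolve_left fun hu => hn ?_
      have : r ∈ {t : ℝ | h' * T e t * s.g ∈ O} := by rw [hu]; trivial
      exact this
    have hN : {t : ℝ | s.K ∈ 𝓝 (T e t * s.g)} ∈ 𝓝 (0 : ℝ) := by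
      have hc : Continuous (fun t : ℝ => T e t * s.g) := (continuous_T e).mul continuous_const
      have h0 : T e 0 * s.g = s.g := by rw [T_zero, one_mul]
      have hint : interior s.K ∈ 𝓝 (T e 0 * s.g) := by
        rw [h0]
        exact interior_mem_nhds.2 s.hg
      have := hc.continuousAt (x := 0) hint
      refine mem_of_superset this fun t ht => ?_
      exact mem_of_superset (isOpen_interior.mem_nhds ht) interior_subset
    obtain ⟨t, ht1, ht2⟩ := small_t hfin hN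
    obtain ⟨s1, hs1, hg1, -⟩ := step hw s e t ht2 (U := Set.univ) univ_mem one_pos 0
    have : ∃ h ∈ Pr I p m w, h * s1.g ∉ O := by
      refine ⟨h', hh', ?_⟩
      rw [hg1, ← mul_assoc]
      exact ht1
    obtain ⟨s2, hs2, hg2⟩ := ih s1 this
    exact ⟨s2, hs1.trans hs2, hg2⟩

/-- one phase: avoid `O`, improve `ε` and `A` -/
theorem phase {μ : ι → ℝ} (hw : Wt μ p m) (e0 : Al I p m) {O : Set (Matrix.SpecialLinearGroup ι ℝ)} (hO : Good I p m O)
    (s : St μ I p m) {ε' : ℝ} (hε' : 0 < ε') (A0 : ℝ) :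
    ∃ s', Le s s' ∧ s'.ε ≤ ε' ∧ A0 ≤ s'.A ∧ ((∀ h ∈ H I p m, h ∈ O) ∨ Disjoint s'.K O) := by
  by_cases hH : ∀ h ∈ H I p m, h ∈ O
  · have ht : s.K ∈ 𝓝 (T e0 ((0 : ℚ) : ℝ) * s.g) := by
      rw [Rat.cast_zero, T_zero, one_mul]
      exact s.hg
    obtain ⟨s', h1, -, -, h2, h3⟩ := step hw s e0 0 ht (U := Set.univ) univ_mem hε' A0
    exact ⟨s', h1, h2, h3, Or.inl hH⟩
  · push Not at hH
    obtain ⟨h, hh, hn⟩ := hH
    obtain ⟨w, hwd⟩ := word (mul_mem hh (inv_mem s.hH))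
    obtain ⟨s1, hs1, hg1⟩ := escape hw hO w s ⟨_, hwd, by rwa [inv_mul_cancel_right]⟩
    have ht : s1.K ∈ 𝓝 (T e0 ((0 : ℚ) : ℝ) * s1.g) := by
      rw [Rat.cast_zero, T_zero, one_mul]
      exact s1.hg
    have hU : Oᶜ ∈ 𝓝 (T e0 ((0 : ℚ) : ℝ) * s1.g) := by
      rw [Rat.cast_zero, T_zero, one_mul]
      exact hO.cl.isOpen_compl.mem_nhds hg1
    obtain ⟨s', h1, -, hK, h2, h3⟩ := step hw s1 e0 0 ht hU hε' A0
    refine ⟨s', hs1.trans h1, h2, h3, Or.inr ?_⟩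
    exact Set.disjoint_left.2 fun x hx hxO => hK hx hxO

/-- **The nested construction.** -/
theorem nested {μ : ι → ℝ} (hw : Wt μ p m) (e0 : Al I p m) (O : ℕ → Set (Matrix.SpecialLinearGroup ι ℝ))
    (hO : ∀ j, Good I p m (O j)) {N : Set (Matrix.SpecialLinearGroup ι ℝ)} (hN : N ∈ 𝓝 (1 : (Matrix.SpecialLinearGroup ι ℝ))) :
    ∃ g ∈ N, g ∈ closure ((H I p m : Set (Matrix.SpecialLinearGroup ι ℝ))) ∧
      (∀ ε : ℝ, 0 < ε → ∃ A : ℝ, ∀ a, A ≤ a → g ∈ Con μ ε a ∧ g ∈ Con μ ε (-a)) ∧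
      ∀ j, (∀ h ∈ H I p m, h ∈ O j) ∨ g ∉ O j := by
  obtain ⟨K0, hK1, hK2, hK3⟩ := local_compact_nhds hN
  have hr1 : IsRat (1 : (Matrix.SpecialLinearGroup ι ℝ)) := ⟨1, by rw [map_one]⟩
  obtain ⟨A0, -, hZ0⟩ := exists_Z hw hr1 one_pos 0
  let s0 : St μ I p m := ⟨1, A0, 1, K0, hK3, hK1, one_mem _, hr1, one_pos, hZ0⟩
  have hnext : ∀ (s : St μ I p m) (j : ℕ), ∃ s', Le s s' ∧ s'.ε ≤ 1 / ((j : ℝ) + 1) ∧ (j : ℝ) ≤ s'.A ∧
      ((∀ h ∈ H I p m, h ∈ O j) ∨ Disjoint s'.K (O j)) := fun s j =>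
    phase hw e0 (hO j) s (by positivity) j
  choose nx hx1 hx2 hx3 hx4 using hnext
  let S : ℕ → St μ I p m := fun n => Nat.rec s0 (fun j s => nx s j) n
  have hS0 : S 0 = s0 := rfl
  have hSs : ∀ j, S (j + 1) = nx (S j) j := fun j => rfl
  have hle : ∀ j, Le (S j) (S (j + 1)) := fun j => by rw [hSs]; exact hx1 _ _
  have hle' : ∀ i j, i ≤ j → Le (S i) (S j) := by
    intro i j hij
    induction hij with
    | refl => exact Le.refl _
    | step _ ih => exact ih.trans (hle _)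
  have hne : (⋂ j, (S j).K ∩ closure ((H I p m : Set (Matrix.SpecialLinearGroup ι ℝ)))).Nonempty := by
    refine IsCompact.nonempty_iInter_of_sequence_nonempty_isCompact_isClosed _ ?_ ?_ ?_ ?_
    · intro j
      exact Set.inter_subset_inter_left _ (hle j).1
    · intro j
      exact ⟨(S j).g, mem_of_mem_nhds (S j).hg, subset_closure (S j).hH⟩
    · exact (S 0).hK.inter_right isClosed_closure
    · intro j
      exact (S j).hK.isClosed.inter isClosed_closure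
  obtain ⟨g, hg⟩ := hne
  rw [Set.mem_iInter] at hg
  refine ⟨g, hK2 (hg 0).1, (hg 0).2, ?_, ?_⟩
  · intro ε hε
    obtain ⟨n, hn⟩ := exists_nat_one_div_lt hε
    refine ⟨(S (n + 1)).A, fun a ha => ?_⟩
    obtain ⟨k, hk⟩ := exists_nat_gt a
    have hkA : a < (S (n + 1 + (k + 1))).A := by
      have h1 : (k : ℝ) ≤ (S (k + 1)).A := by rw [hSs]; exact hx3 _ _
      have h2 := (hle' (k + 1) (n + 1 + (k + 1)) (by omega)).2.1
      linarith
    have h3 := (hle' (n + 1) (n + 1 + (k + 1)) (by omega)).2.2.2 g (hg (n + 1 + (k + 1))).1 a ha hkA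
    have h4 : (S (n + 1)).ε ≤ ε := by
      have : (S (n + 1)).ε ≤ 1 / ((n : ℝ) + 1) := by rw [hSs]; exact hx2 _ _
      linarith
    exact ⟨Con_mono h4 h3.1, Con_mono h4 h3.2⟩
  · intro j
    rcases hx4 (S j) j with h | h
    · exact Or.inl h
    · right
      intro hgO
      rw [← hSs] at h
      exact Set.disjoint_left.1 h (hg (j + 1)).1 hgO

end Pool.Agent.E8helper98.WD
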