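import Pool.Agent.E8helper98.WD.Lin

set_option autoImplicit false
set_option linter.unusedSectionVars false

/-!
# The quotient by a group commensurable with `SL(ι, ℤ)`
-/

namespace Pool.Agent.E8helper98.WD

open Filter Topology Matrix Matrix.SpecialLinearGroup Module

variable {ι : Type*} [Fintype ι] [DecidableEq ι]

/-- the integral points -/
def SZ (ι : Type*) [Fintype ι] [DecidableEq ι] : Subgroup (Matrix.SpecialLinearGroup ι ℝ) :=
  (SpecialLinearGroup.map (Int.castRingHom ℝ)).range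

/-- there is a short integral vector or covector -/
def Short (h : (Matrix.SpecialLinearGroup ι ℝ)) (ε : ℝ) : Prop :=
  (∃ u : ι → ℤ, u ≠ 0 ∧ ‖(h : Matrix ι ι ℝ) *ᵥ (fun i => (u i : ℝ))‖ < ε) ∨
    (∃ u : ι → ℤ, u ≠ 0 ∧ ‖(fun i => (u i : ℝ)) ᵥ* ((h⁻¹ : (Matrix.SpecialLinearGroup ι ℝ)) : Matrix ι ι ℝ)‖ < ε)

theorem norm_int_ge {u : ι → ℤ} (hu : u ≠ 0) : 1 ≤ ‖(fun i => (u i : ℝ))‖ := by
  obtain ⟨i, hi⟩ : ∃ i, u i ≠ 0 := by
    by_contra hcon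
    push Not at hcon
    exact hu (funext hcon)
  have h1 : (1 : ℝ) ≤ |(u i : ℝ)| := by
    have : (1 : ℤ) ≤ |u i| := Int.one_le_abs hi
    exact_mod_cast this
  exact h1.trans (norm_le_pi_norm (fun i => (u i : ℝ)) i)

theorem norm_mulVec_le {M : Matrix ι ι ℝ} {B : ℝ} (hB : 0 ≤ B) (hM : ∀ i j, |M i j| ≤ B) (w : ι → ℝ) :
    ‖M *ᵥ w‖ ≤ (Fintype.card ι * B) * ‖w‖ := by
  refine (pi_norm_le_iff_of_nonneg (by positivity)).2 fun i => ?_
  change ‖∑ j, M i j * w j‖ ≤ _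
  calc ‖∑ j, M i j * w j‖ ≤ ∑ j, ‖M i j * w j‖ := norm_sum_le _ _
    _ ≤ ∑ _j : ι, B * ‖w‖ := by
        refine Finset.sum_le_sum fun j _ => ?_
        rw [norm_mul]
        exact mul_le_mul (hM i j) (norm_le_pi_norm w j) (norm_nonneg _) hB
    _ = _ := by
        rw [Finset.sum_const, Finset.card_univ, nsmul_eq_mul]
        ring

theorem norm_vecMul_le {M : Matrix ι ι ℝ} {B : ℝ} (hB : 0 ≤ B) (hM : ∀ i j, |M i j| ≤ B) (w : ι → ℝ) :
    ‖w ᵥ* M‖ ≤ (Fintype.card ι * B) * ‖w‖ := by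
  rw [← mulVec_transpose]
  exact norm_mulVec_le hB (fun i j => hM j i) w

/-- elements of a compact set have no very short vectors after an integral change of basis -/
theorem not_short_compact {C : Set (Matrix.SpecialLinearGroup ι ℝ)} (hC : IsCompact C) :
    ∃ ε : ℝ, 0 < ε ∧ ∀ c ∈ C, ∀ δ ∈ SZ ι, ¬ Short (c * δ) ε := by
  have hc1 : Continuous (fun g : (Matrix.SpecialLinearGroup ι ℝ) => (g : Matrix ι ι ℝ)) := continuous_subtype_val
  have hb : ∃ B : ℝ, 0 ≤ B ∧ ∀ c ∈ C, (∀ i j, |(c : Matrix ι ι ℝ) i j| ≤ B) ∧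
      ∀ i j, |((c⁻¹ : (Matrix.SpecialLinearGroup ι ℝ)) : Matrix ι ι ℝ) i j| ≤ B := by
    have h1 : ∀ i j, ∃ B : ℝ, ∀ c ∈ C, |(c : Matrix ι ι ℝ) i j| ≤ B := by
      intro i j
      have hcont : Continuous (fun g : (Matrix.SpecialLinearGroup ι ℝ) => |(g : Matrix ι ι ℝ) i j|) :=
        (hc1.matrix_elem i j).abs
      obtain ⟨B, hB⟩ := (hC.image hcont).bddAbove
      exact ⟨B, fun c hc => hB ⟨c, hc, rfl⟩⟩
    have h2 : ∀ i j, ∃ B : ℝ, ∀ c ∈ C, |((c⁻¹ : (Matrix.SpecialLinearGroup ι ℝ)) : Matrix ι ι ℝ) i j| ≤ B := by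
      intro i j
      have hcont : Continuous (fun g : (Matrix.SpecialLinearGroup ι ℝ) => |((g⁻¹ : (Matrix.SpecialLinearGroup ι ℝ)) : Matrix ι ι ℝ) i j|) :=
        ((hc1.comp continuous_inv).matrix_elem i j).abs
      obtain ⟨B, hB⟩ := (hC.image hcont).bddAbove
      exact ⟨B, fun c hc => hB ⟨c, hc, rfl⟩⟩
    choose B1 hB1 using h1
    choose B2 hB2 using h2
    refine ⟨∑ i, ∑ j, (|B1 i j| + |B2 i j|), by positivity, fun c hc => ⟨fun i j => ?_, fun i j => ?_⟩⟩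
    · have h3 : |B1 i j| + |B2 i j| ≤ ∑ i, ∑ j, (|B1 i j| + |B2 i j|) :=
        (Finset.single_le_sum (f := fun j => |B1 i j| + |B2 i j|) (fun j _ => by positivity)
          (Finset.mem_univ j)).trans (Finset.single_le_sum
            (f := fun i => ∑ j, (|B1 i j| + |B2 i j|)) (fun i _ => by positivity) (Finset.mem_univ i))
      have := hB1 i j c hc
      have := le_abs_self (B1 i j)
      have := abs_nonneg (B2 i j)
      linarith
    · have h3 : |B1 i j| + |B2 i j| ≤ ∑ i, ∑ j, (|B1 i j| + |B2 i j|) :=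
        (Finset.single_le_sum (f := fun j => |B1 i j| + |B2 i j|) (fun j _ => by positivity)
          (Finset.mem_univ j)).trans (Finset.single_le_sum
            (f := fun i => ∑ j, (|B1 i j| + |B2 i j|)) (fun i _ => by positivity) (Finset.mem_univ i))
      have := hB2 i j c hc
      have := le_abs_self (B2 i j)
      have := abs_nonneg (B1 i j)
      linarith
  obtain ⟨B, hB0, hB⟩ := hb
  set D : ℝ := Fintype.card ι * B + 1 with hD
  have hDpos : 0 < D := by positivity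
  refine ⟨1 / D, by positivity, fun c hc δ hδ => ?_⟩
  obtain ⟨hBc, hBi⟩ := hB c hc
  obtain ⟨z, rfl⟩ := hδ
  have hval : ∀ x : ℝ, 1 ≤ (Fintype.card ι * B) * x → 0 ≤ x → 1 / D ≤ x := by
    intro x hx hx0
    rw [div_le_iff₀ hDpos, hD]
    nlinarith
  rintro (⟨u, hu, hs⟩ | ⟨u, hu, hs⟩)
  · have hzu : (z : Matrix ι ι ℤ) *ᵥ u ≠ 0 := by
      intro h0
      apply hu
      have : ((z⁻¹ : Matrix.SpecialLinearGroup ι ℤ) : Matrix ι ι ℤ) *ᵥ ((z : Matrix ι ι ℤ) *ᵥ u) = 0 := by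
        rw [h0, mulVec_zero]
      rwa [mulVec_mulVec, ← coe_mul, inv_mul_cancel, coe_one, one_mulVec] at this
    have e1 : ((SpecialLinearGroup.map (Int.castRingHom ℝ) z : (Matrix.SpecialLinearGroup ι ℝ)) : Matrix ι ι ℝ) *ᵥ (fun i => (u i : ℝ)) =
        fun i => ((((z : Matrix ι ι ℤ) *ᵥ u) i : ℤ) : ℝ) := by
      funext i
      simp [mulVec, dotProduct]
    have hw := norm_int_ge hzu
    rw [← e1] at hw
    set w := ((SpecialLinearGroup.map (Int.castRingHom ℝ) z : (Matrix.SpecialLinearGroup ι ℝ)) : Matrix ι ι ℝ) *ᵥ (fun i => (u i : ℝ))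
    have e2 : ((c * SpecialLinearGroup.map (Int.castRingHom ℝ) z : (Matrix.SpecialLinearGroup ι ℝ)) : Matrix ι ι ℝ) *ᵥ (fun i => (u i : ℝ)) =
        (c : Matrix ι ι ℝ) *ᵥ w := by
      rw [coe_mul, ← mulVec_mulVec]
    rw [e2] at hs
    have e3 : w = ((c⁻¹ : (Matrix.SpecialLinearGroup ι ℝ)) : Matrix ι ι ℝ) *ᵥ ((c : Matrix ι ι ℝ) *ᵥ w) := by
      rw [mulVec_mulVec, ← coe_mul, inv_mul_cancel, coe_one, one_mulVec]
    have h4 := norm_mulVec_le hB0 hBi ((c : Matrix ι ι ℝ) *ᵥ w)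
    rw [← e3] at h4
    exact absurd hs (not_lt.2 (hval _ (hw.trans h4) (norm_nonneg _)))
  · have hzu : u ᵥ* ((z⁻¹ : Matrix.SpecialLinearGroup ι ℤ) : Matrix ι ι ℤ) ≠ 0 := by
      intro h0
      apply hu
      have : (u ᵥ* ((z⁻¹ : Matrix.SpecialLinearGroup ι ℤ) : Matrix ι ι ℤ)) ᵥ* (z : Matrix ι ι ℤ) = 0 := by
        rw [h0, zero_vecMul]
      rwa [vecMul_vecMul, ← coe_mul, inv_mul_cancel, coe_one, vecMul_one] at this
    have e1 : (fun i => (u i : ℝ)) ᵥ* (((SpecialLinearGroup.map (Int.castRingHom ℝ) z)⁻¹ : (Matrix.SpecialLinearGroup ι ℝ)) : Matrix ι ι ℝ) =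
        fun i => (((u ᵥ* ((z⁻¹ : Matrix.SpecialLinearGroup ι ℤ) : Matrix ι ι ℤ)) i : ℤ) : ℝ) := by
      rw [← map_inv]
      funext i
      change ∑ j, (u j : ℝ) * ((((z⁻¹ : Matrix.SpecialLinearGroup ι ℤ) : Matrix ι ι ℤ) j i : ℤ) : ℝ) =
        ((∑ j, u j * ((z⁻¹ : Matrix.SpecialLinearGroup ι ℤ) : Matrix ι ι ℤ) j i : ℤ) : ℝ)
      push_cast
      rfl
    have hw := norm_int_ge hzu
    rw [← e1] at hw
    set w := (fun i => (u i : ℝ)) ᵥ* (((SpecialLinearGroup.map (Int.castRingHom ℝ) z)⁻¹ : (Matrix.SpecialLinearGroup ι ℝ)) : Matrix ι ι ℝ)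
    have e2 : (fun i => (u i : ℝ)) ᵥ* (((c * SpecialLinearGroup.map (Int.castRingHom ℝ) z)⁻¹ : (Matrix.SpecialLinearGroup ι ℝ)) : Matrix ι ι ℝ) =
        w ᵥ* ((c⁻¹ : (Matrix.SpecialLinearGroup ι ℝ)) : Matrix ι ι ℝ) := by
      rw [_root_.mul_inv_rev, coe_mul, ← vecMul_vecMul]
    rw [e2] at hs
    have e3 : w = (w ᵥ* ((c⁻¹ : (Matrix.SpecialLinearGroup ι ℝ)) : Matrix ι ι ℝ)) ᵥ* (c : Matrix ι ι ℝ) := by
      rw [vecMul_vecMul, ← coe_mul, inv_mul_cancel, coe_one, vecMul_one]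
    have h4 := norm_vecMul_le hB0 hBc (w ᵥ* ((c⁻¹ : (Matrix.SpecialLinearGroup ι ℝ)) : Matrix ι ι ℝ))
    rw [← e3] at h4
    exact absurd hs (not_lt.2 (hval _ (hw.trans h4) (norm_nonneg _)))

/-- coset representatives -/
theorem exists_reps {Γ : Subgroup (Matrix.SpecialLinearGroup ι ℝ)} (hΓ : (SZ ι).relIndex Γ ≠ 0) :
    ∃ F : Finset (Matrix.SpecialLinearGroup ι ℝ), ∀ γ ∈ Γ, ∃ f ∈ F, ∃ δ ∈ SZ ι, γ = f * δ := by
  classical
  have : ((SZ ι).subgroupOf Γ).FiniteIndex := ⟨hΓ⟩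
  have : Finite (Γ ⧸ (SZ ι).subgroupOf Γ) := Subgroup.finite_quotient_of_finiteIndex
  have : Fintype (Γ ⧸ (SZ ι).subgroupOf Γ) := Fintype.ofFinite _
  refine ⟨Finset.univ.image fun q : Γ ⧸ (SZ ι).subgroupOf Γ => ((Quotient.out q : Γ) : (Matrix.SpecialLinearGroup ι ℝ)), ?_⟩
  intro γ hγ
  set q : Γ ⧸ (SZ ι).subgroupOf Γ := QuotientGroup.mk ⟨γ, hγ⟩ with hq
  have h1 : (QuotientGroup.mk (Quotient.out q) : Γ ⧸ (SZ ι).subgroupOf Γ) = QuotientGroup.mk ⟨γ, hγ⟩ := by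
    rw [← hq]
    exact Quotient.out_eq q
  rw [QuotientGroup.eq] at h1
  have h2 : ((Quotient.out q : Γ) : (Matrix.SpecialLinearGroup ι ℝ))⁻¹ * γ ∈ SZ ι := h1
  exact ⟨_, Finset.mem_image_of_mem _ (Finset.mem_univ q), _, h2, by rw [mul_inv_cancel_left]⟩

/-- compact sets in the quotient -/
theorem not_short_quot {Γ : Subgroup (Matrix.SpecialLinearGroup ι ℝ)} (hΓ : (SZ ι).relIndex Γ ≠ 0) {K : Set ((Matrix.SpecialLinearGroup ι ℝ) ⧸ Γ)} (hK : IsCompact K) :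
    ∃ ε : ℝ, 0 < ε ∧ ∀ h : (Matrix.SpecialLinearGroup ι ℝ), (h : (Matrix.SpecialLinearGroup ι ℝ) ⧸ Γ) ∈ K → ¬ Short h ε := by
  classical
  -- a compact lift
  have hlift : ∃ C : Set (Matrix.SpecialLinearGroup ι ℝ), IsCompact C ∧ K ⊆ (fun h : (Matrix.SpecialLinearGroup ι ℝ) => (h : (Matrix.SpecialLinearGroup ι ℝ) ⧸ Γ)) '' C := by
    refine hK.induction_on (p := fun K => ∃ C : Set (Matrix.SpecialLinearGroup ι ℝ), IsCompact C ∧ K ⊆ (fun h : (Matrix.SpecialLinearGroup ι ℝ) => (h : (Matrix.SpecialLinearGroup ι ℝ) ⧸ Γ)) '' C)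
      ⟨∅, isCompact_empty, by simp⟩ ?_ ?_ ?_
    · rintro s t hst ⟨C, hC, hC2⟩
      exact ⟨C, hC, hst.trans hC2⟩
    · rintro s t ⟨C, hC, hC2⟩ ⟨C', hC', hC2'⟩
      refine ⟨C ∪ C', hC.union hC', ?_⟩
      rw [Set.image_union]
      exact Set.union_subset_union hC2 hC2'
    · intro x _
      obtain ⟨g, rfl⟩ := QuotientGroup.mk_surjective x
      obtain ⟨C, hC1, hC2⟩ := exists_compact_mem_nhds g
      refine ⟨(fun h : (Matrix.SpecialLinearGroup ι ℝ) => (h : (Matrix.SpecialLinearGroup ι ℝ) ⧸ Γ)) '' C, mem_nhdsWithin_of_mem_nhds ?_, C, hC1, subset_rfl⟩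
      exact QuotientGroup.isOpenMap_coe.image_mem_nhds hC2
  obtain ⟨C, hC, hKC⟩ := hlift
  obtain ⟨F, hF⟩ := exists_reps hΓ
  have hC' : IsCompact (⋃ f ∈ F, (fun c : (Matrix.SpecialLinearGroup ι ℝ) => c * f) '' C) :=
    F.isCompact_biUnion fun f _ => hC.image (by fun_prop)
  obtain ⟨ε, hε, hns⟩ := not_short_compact hC'
  refine ⟨ε, hε, fun h hh => ?_⟩
  obtain ⟨c, hc, hch⟩ := hKC hh
  have h1 : c⁻¹ * h ∈ Γ := QuotientGroup.eq.1 hch
  obtain ⟨f, hf, δ, hδ, hfd⟩ := hF _ h1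
  have e : h = (c * f) * δ := by
    rw [mul_assoc, ← hfd, mul_inv_cancel_left]
  rw [e]
  exact hns _ (Set.mem_biUnion hf ⟨c, hc, rfl⟩) δ hδ

end Pool.Agent.E8helper98.WD
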