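import Pool.Agent.E8helper98.WD.Gen

set_option autoImplicit false
set_option linter.unusedSectionVars false

/-!
# A vector contracted on a whole orbit of `H` is zero
-/

namespace Pool.Agent.E8helper98.WD

open Filter Topology Matrix Matrix.SpecialLinearGroup

variable {ι : Type*} [Fintype ι] [DecidableEq ι] {I : Set ι} {p m : ι}

theorem dexp_pow (x : ι → ℝ) (hx : ∑ i, x i = 0) (n : ℕ) (hn : ∑ i, (n * x i : ℝ) = 0) :
    dexp x hx ^ n = dexp (fun i => (n : ℝ) * x i) hn := by
  apply Subtype.ext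
  rw [coe_pow]
  change (diagonal (fun i => Real.exp (x i))) ^ n = diagonal (fun i => Real.exp (n * x i))
  rw [diagonal_pow]
  congr 1
  funext i
  simp [Real.exp_nat_mul]

/-- a power-contracting endomorphism of a finite dimensional space with determinant `1` lives on `0` -/
theorem contr_zero {W : Type*} [NormedAddCommGroup W] [NormedSpace ℝ W] [FiniteDimensional ℝ W]
    (B : W →ₗ[ℝ] W) (hB : ∀ w, Tendsto (fun n : ℕ => (B ^ n) w) atTop (𝓝 0))
    (hdet : LinearMap.det B = 1) : Subsingleton W := by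
  classical
  by_contra hns
  rw [not_subsingleton_iff_nontrivial] at hns
  set b := Module.finBasis ℝ W
  have hpos : 0 < Module.finrank ℝ W := Module.finrank_pos
  have hne : Nonempty (Fin (Module.finrank ℝ W)) := ⟨⟨0, hpos⟩⟩
  have h1 : Tendsto (fun n : ℕ => LinearMap.toMatrix b b (B ^ n)) atTop
      (𝓝 (0 : Matrix (Fin (Module.finrank ℝ W)) (Fin (Module.finrank ℝ W)) ℝ)) := by
    refine tendsto_pi_nhds.2 fun i => tendsto_pi_nhds.2 fun j => ?_
    have hc : Continuous (b.coord i) := LinearMap.continuous_of_finiteDimensional _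
    have := (hc.tendsto 0).comp (hB (b j))
    rw [map_zero] at this
    refine this.congr fun n => ?_
    simp [LinearMap.toMatrix_apply]
  have h2 : Tendsto (fun n : ℕ => (LinearMap.toMatrix b b (B ^ n)).det) atTop (𝓝 (0 : ℝ)) := by
    have hc : Continuous (fun M : Matrix (Fin (Module.finrank ℝ W)) (Fin (Module.finrank ℝ W)) ℝ => M.det) :=
      continuous_id.matrix_det
    have := (hc.tendsto 0).comp h1
    rw [det_zero] at this
    exact this
  have h3 : ∀ n : ℕ, (LinearMap.toMatrix b b (B ^ n)).det = 1 := by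
    intro n
    rw [LinearMap.det_toMatrix, map_pow, hdet, one_pow]
  simp_rw [h3] at h2
  exact one_ne_zero (tendsto_nhds_unique tendsto_const_nhds h2)

/-- **A vector contracted on a whole orbit of `H` is zero.** -/
theorem orbit_zero {c : ι} (hpm : p ≠ m) (hp : p ∈ I) (hm : m ∈ I) (hc : c ∈ I) (hcp : c ≠ p)
    (hcm : c ≠ m) (μ : ι → ℝ) (hμ : ∑ i, μ i = 0) (hI : ∀ i, i ∉ I → μ i = 0) {N : ℕ}
    (ρ : SpecialLinearGroup ι ℝ →* Matrix (Fin N) (Fin N) ℝ) (v : Fin N → ℝ)
    (h : ∀ g ∈ H I p m, Tendsto (fun n : ℕ => ρ (dexp μ hμ ^ n * g) *ᵥ v) atTop (𝓝 0)) : v = 0 := by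
  set W : Submodule ℝ (Fin N → ℝ) := Submodule.span ℝ {w | ∃ g ∈ H I p m, w = ρ g *ᵥ v} with hW
  have hvW : v ∈ W := Submodule.subset_span ⟨1, one_mem _, by rw [map_one, one_mulVec]⟩
  have hstab : ∀ g ∈ H I p m, ∀ w ∈ W, (Matrix.toLin' (ρ g)) w ∈ W := by
    intro g hg w hw
    have : W ≤ W.comap (Matrix.toLin' (ρ g)) := by
      rw [hW, Submodule.span_le]
      rintro _ ⟨g', hg', rfl⟩
      refine Submodule.subset_span ⟨g * g', mul_mem hg hg', ?_⟩
      rw [map_mul, Matrix.toLin'_apply, mulVec_mulVec]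
    exact this hw
  let R : H I p m →* (W →ₗ[ℝ] W) :=
    { toFun := fun g => (Matrix.toLin' (ρ g)).restrict (hstab g g.2)
      map_one' := by
        ext w
        simp
      map_mul' := fun g g' => by
        ext w
        simp [mulVec_mulVec] }
  have hdm : dexp μ hμ ∈ H I p m := dexp_mem hpm hp hm hc hcp hcm μ hμ hI
  have hdet : LinearMap.det (R ⟨dexp μ hμ, hdm⟩) = 1 := by
    have := hom_trivial hpm hp hm hc hcp hcm ((LinearMap.det (M := W) (A := ℝ)).comp R) ⟨dexp μ hμ, hdm⟩
    exact this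
  have hcontr : ∀ w : W, Tendsto (fun n : ℕ => ((R ⟨dexp μ hμ, hdm⟩) ^ n) w) atTop (𝓝 0) := by
    intro w
    have hw2 : ∀ w ∈ W, Tendsto (fun n : ℕ => ρ (dexp μ hμ ^ n) *ᵥ w) atTop (𝓝 0) := by
      intro w hw
      rw [hW] at hw
      induction hw using Submodule.span_induction with
      | mem x hx =>
        obtain ⟨g, hg, rfl⟩ := hx
        refine (h g hg).congr fun n => ?_
        rw [map_mul, mulVec_mulVec]
      | zero => simp
      | add x y _ _ hx hy =>
        have := hx.add hy
        rw [add_zero] at this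
        refine this.congr fun n => ?_
        rw [mulVec_add]
      | smul a x _ hx =>
        have := hx.const_smul a
        rw [smul_zero] at this
        refine this.congr fun n => ?_
        rw [mulVec_smul]
    rw [tendsto_subtype_rng]
    refine (hw2 w w.2).congr fun n => ?_
    rw [← map_pow, ← Matrix.toLin'_apply]
    rfl
  have hss := contr_zero _ hcontr hdet
  have : (⟨v, hvW⟩ : W) = 0 := Subsingleton.elim _ _
  exact congrArg Subtype.val this

end Pool.Agent.E8helper98.WD
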